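import Pool.Agent.H670R2.OrthDefs

/-!
# Supports of orthogonal matrices; graphs with two distinct eigenvalues
-/

namespace Pool.Agent.TH925.OS

open Pool.Agent.NPC Pool.Agent.H670R2

/-- `B` is a list of `n` lists of numbers; it describes the set of the positions `(i, j)`
with `i, j < n` for which `j` is a member of the `i`-th list. This set is the set of positions of
the nonzero entries of a real orthogonal `n × n` matrix. -/
def IsSupport (B : List (List ℕ)) : Prop :=
  ∃ Q : Matrix (Fin B.length) (Fin B.length) ℝ, Q * Q.transpose = 1 ∧
    ∀ i j : Fin B.length, Q i j ≠ 0 ↔ j.1 ∈ B.getD i.1 []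

/-- The real symmetric matrices `M` with graph `G`: for `i ≠ j` the entry `M i j` is nonzero if and
only if `i` and `j` are adjacent; the diagonal is free. -/
def SymOf {V : Type} (G : SimpleGraph V) : Set (Matrix V V ℝ) :=
  {M | M.IsSymm ∧ ∀ i j, i ≠ j → (M i j ≠ 0 ↔ G.Adj i j)}

/-- The parameter `q(G)`: the least number of distinct eigenvalues of a real symmetric matrix with
graph `G`. -/
noncomputable def qNum {n : ℕ} (G : SimpleGraph (Fin n)) : ℕ :=
  sInf {k | ∃ M ∈ SymOf G, (spectrum ℝ M).ncard = k}

/-- `L` is the list of adjacency lists of a graph `G` with `q(G) = 2`. -/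
def HasTwo (L : List (List ℕ)) : Prop :=
  ∃ h : IsGraph L, qNum (graphOf L h) = 2

/-- The decision problem: is a given square zero-nonzero pattern the pattern of a real orthogonal
matrix? -/
def OrthSupport : Set (List Bool) := lang IsSupport

/-- The decision problem: does a given graph have a real symmetric matrix with only two distinct
eigenvalues, is `q(G) = 2`? -/
def TwoEigenvalues : Set (List Bool) := lang HasTwo

end Pool.Agent.TH925.OS
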