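import Pool.Agent.TH925.OS.Types
import Pool.Agent.TH925.OS.Defs

/-!
# The numerical pattern
-/

namespace Pool.Agent.TH925.OS

open Module Submodule Pool.Agent.H670R2

/-- The number of columns. -/
def nc (R : ℕ) : ℕ := 3 + R * R * 2

/-- The numbering of the columns. -/
def colE (R : ℕ) : Col R ≃ Fin (nc R) :=
  ((Equiv.refl (Fin 3)).sumCongr ((finProdFinEquiv.prodCongr (Equiv.refl (Fin 2))).trans
    finProdFinEquiv)).trans finSumFinEquiv

theorem colE_inl {R : ℕ} (j : Fin 3) : (colE R (Sum.inl j)).1 = j.1 := rfl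

theorem colE_inr {R : ℕ} (ρ σ : Fin R) (s : Fin 2) :
    (colE R (Sum.inr ((ρ, σ), s))).1 = 3 + (s.1 + 2 * (σ.1 + R * ρ.1)) := rfl

/-- The pattern. -/
def supp (L : List (List ℕ)) (R i j : ℕ) : Bool :=
  decide (R ≤ i) || (decide (j < 3) ||
    ((decide ((j - 3) / 2 / R < (j - 3) / 2 % R) &&
      decide ((j - 3) % 2 < ty L ((j - 3) / 2 / R) ((j - 3) / 2 % R))) &&
      (decide (i = (j - 3) / 2 / R) || decide (i = (j - 3) / 2 % R))))

theorem supp_colE (L : List (List ℕ)) (i : ℕ) (c : Col (nr L.length)) :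
    supp L (nr L.length) i (colE (nr L.length) c).1 = true ↔
      ∀ h : i < nr L.length, suppK (tyF L) ⟨i, h⟩ c := by
  rcases c with j | ⟨⟨ρ, σ⟩, s⟩
  · rw [colE_inl]
    have := j.2
    simp [supp, this, suppK]
  · rw [colE_inr]
    have hs := s.2
    have hρ := ρ.2
    have hσ := σ.2
    have e1 : 3 + (s.1 + 2 * (σ.1 + nr L.length * ρ.1)) - 3 =
        s.1 + 2 * (σ.1 + nr L.length * ρ.1) := by omega
    have e2 : (s.1 + 2 * (σ.1 + nr L.length * ρ.1)) % 2 = s.1 := by omega
    have e3 : (s.1 + 2 * (σ.1 + nr L.length * ρ.1)) / 2 = σ.1 + nr L.length * ρ.1 := by omega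
    have e4 : (σ.1 + nr L.length * ρ.1) % nr L.length = σ.1 := by
      rw [Nat.add_mul_mod_self_left, Nat.mod_eq_of_lt hσ]
    have e5 : (σ.1 + nr L.length * ρ.1) / nr L.length = ρ.1 := by
      rw [Nat.add_mul_div_left _ _ (by omega), Nat.div_eq_of_lt hσ, Nat.zero_add]
    unfold supp
    rw [e1, e2, e3, e4, e5]
    have h3 : ¬ (3 + (s.1 + 2 * (σ.1 + nr L.length * ρ.1)) < 3) := by omega
    simp only [h3, decide_false, Bool.false_or, Bool.or_eq_true, Bool.and_eq_true,
      decide_eq_true_eq, suppK, tyF]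
    constructor
    · rintro (h | ⟨⟨h1, h2⟩, h4⟩) h5
      · omega
      · exact ⟨⟨h1, h2⟩, h4.imp (fun h => Fin.ext h) (fun h => Fin.ext h)⟩
    · intro h
      by_cases h5 : i < nr L.length
      · obtain ⟨⟨h1, h2⟩, h4⟩ := h h5
        exact Or.inr ⟨⟨h1, h2⟩, h4.imp (fun h => congrArg Fin.val h) (fun h => congrArg Fin.val h)⟩
      · exact Or.inl (by omega)

/-- `S` is the support of a real orthogonal matrix. -/
def SuppReal (n : ℕ) (S : ℕ → ℕ → Bool) : Prop :=
  ∃ Q : Matrix (Fin n) (Fin n) ℝ, Q * Q.transpose = 1 ∧ ∀ i j, Q i j ≠ 0 ↔ S i.1 j.1 = true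

/-- The matrix encoding of orthogonal representations. -/
theorem supp_iff {L : List (List ℕ)} (h : IsGraph L) :
    (∃ φ : Fin L.length → E3, IsOrthRep (graphOf L h) φ) ↔
      SuppReal (nc (nr L.length)) (supp L (nr L.length)) := by
  set R := nr L.length with hR
  have hcard : Fintype.card (Col R) = nc R := by
    rw [Fintype.card_congr (colE R), Fintype.card_fin]
  constructor
  · rintro ⟨φ, hφ⟩
    obtain ⟨w, hw⟩ := rel_of_orth h hφ
    obtain ⟨Q, hQ1, hQ2⟩ := realise hw (fun i k => ty_le L i.1 k.1) (ty_two L) hcard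
    refine ⟨Matrix.of fun i j => Q i ((colE R).symm j), ?_, fun i j => ?_⟩
    · ext i k
      rw [Matrix.mul_apply, Matrix.one_apply]
      simp only [Matrix.transpose_apply, Matrix.of_apply]
      rw [(colE R).symm.sum_comp (fun c => Q i c * Q k c)]
      exact hQ1 i k
    · rw [Matrix.of_apply, hQ2, ← supp_colE L i.1 ((colE R).symm j)]
      have : colE (nr L.length) ((colE R).symm j) = j := (colE R).apply_symm_apply j
      rw [this]
  · rintro ⟨Q, hQ1, hQ2⟩
    have hRN : ∀ i : Fin R, i.1 < nc R := fun i => by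
      have h1 := i.2
      have h2 : R ≤ R * R := Nat.le_mul_self R
      unfold nc
      omega
    refine orth_of_rel h (extract (τ := tyF L)
      (a := fun i c => Q ⟨i.1, hRN i⟩ (colE R c)) (fun i c => ?_) (fun i k hik => ?_))
    · rw [hQ2]
      have h1 := supp_colE L i.1 c
      rw [show (supp L R i.1 (colE R c).1 = true) ↔ _ from h1]
      exact ⟨fun h2 => h2 i.2, fun h2 _ => h2⟩
    · rw [(colE R).sum_comp (fun j => Q ⟨i.1, hRN i⟩ j * Q ⟨k.1, hRN k⟩ j)]
      have h1 := congrFun (congrFun hQ1 ⟨i.1, hRN i⟩) ⟨k.1, hRN k⟩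
      rw [Matrix.mul_apply, Matrix.one_apply_ne (fun e => by
        have := Fin.mk.inj e
        have hik' : i.1 < k.1 := hik
        omega)] at h1
      exact h1

/-- The lists of a pattern. -/
def patL (n : ℕ) (S : ℕ → ℕ → Bool) : List (List ℕ) :=
  (List.range n).map fun i => (List.range n).filter fun j => S i j

theorem patL_length (n : ℕ) (S : ℕ → ℕ → Bool) : (patL n S).length = n := by simp [patL]

theorem mem_patL {n : ℕ} {S : ℕ → ℕ → Bool} {i j : ℕ} (hi : i < n) :
    j ∈ (patL n S).getD i [] ↔ j < n ∧ S i j = true := by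
  rw [List.getD_eq_getElem _ _ (by rw [patL_length]; exact hi)]
  simp [patL]

theorem isSupport_of_length {B : List (List ℕ)} {n : ℕ} (hn : B.length = n) :
    IsSupport B ↔ ∃ Q : Matrix (Fin n) (Fin n) ℝ, Q * Q.transpose = 1 ∧
      ∀ i j : Fin n, Q i j ≠ 0 ↔ j.1 ∈ B.getD i.1 [] := by
  subst hn
  rfl

theorem isSupport_patL (n : ℕ) (S : ℕ → ℕ → Bool) : IsSupport (patL n S) ↔ SuppReal n S := by
  rw [isSupport_of_length (patL_length n S)]
  unfold SuppReal
  refine exists_congr fun Q => and_congr_right fun _ => forall_congr' fun i => forall_congr' fun j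
    => ?_
  rw [mem_patL i.2]
  simp [j.2]

end Pool.Agent.TH925.OS
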