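import Pool.Agent.TH925.OS.Two
import Pool.Agent.TH925.OS.Red
import Pool.Agent.H670R2.OrthMem
import Pool.Agent.ER.Build

/-!
# Membership in `∃ℝ`
-/

namespace Pool.Agent.NPC.TH925OS

open Pool.Agent.TH925.OS Pool.Agent.NPC.ER Pool.Agent.H670R2 Pool.Agent.NPC.H670R2

/-- the variable of the entry `(i, j)` of an `n × n` matrix -/
def ev (n i j : ℕ) : Tm := Tm.var (i * n + j)

/-- the value of the Kronecker symbol -/
def dlt (i k : ℕ) : Tm := if i = k then Tm.one else Tm.zero

/-- all pairs -/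
def allPairs (n : ℕ) (F : ℕ → ℕ → Fm) : List Fm :=
  (List.range n).flatMap fun i => (List.range n).map fun j => F i j

/-- the inner product of the rows `i` and `k` -/
def rowF (n i k : ℕ) : Fm :=
  Fm.eq (sumTm ((List.range n).map fun j => Tm.mul (ev n i j) (ev n k j))) (dlt i k)

/-- the entry `(i, j)` is nonzero or zero -/
def entF (n i j : ℕ) (b : Bool) : Fm :=
  if b = true then Fm.not (Fm.eq (ev n i j) Tm.zero) else Fm.eq (ev n i j) Tm.zero

theorem holds_allPairs (x : ℕ → ℝ) (n : ℕ) (F : ℕ → ℕ → Fm) :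
    (conj (allPairs n F)).Holds x ↔ ∀ i < n, ∀ j < n, (F i j).Holds x := by
  rw [holds_conj]
  simp only [allPairs, List.mem_flatMap, List.mem_range, List.mem_map]
  constructor
  · intro h i hi j hj
    exact h _ ⟨i, hi, j, hj, rfl⟩
  · rintro h _ ⟨i, hi, j, hj, rfl⟩
    exact h i hi j hj

/-- the matrix of an assignment -/
def matOf (n : ℕ) (x : ℕ → ℝ) : Matrix (Fin n) (Fin n) ℝ :=
  Matrix.of fun i j => x (i.1 * n + j.1)

/-- the assignment of a matrix -/
noncomputable def asgOf {n : ℕ} (Q : Matrix (Fin n) (Fin n) ℝ) (k : ℕ) : ℝ :=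
  if h : k / n < n ∧ k % n < n then Q ⟨k / n, h.1⟩ ⟨k % n, h.2⟩ else 0

theorem matOf_asgOf {n : ℕ} (Q : Matrix (Fin n) (Fin n) ℝ) : matOf n (asgOf Q) = Q := by
  ext i j
  have hj := j.2
  have hn : 0 < n := by omega
  have h1 : (i.1 * n + j.1) / n = i.1 := by
    rw [Nat.mul_comm, Nat.mul_add_div hn, Nat.div_eq_of_lt hj, Nat.add_zero]
  have h2 : (i.1 * n + j.1) % n = j.1 := by
    rw [Nat.mul_comm, Nat.mul_add_mod, Nat.mod_eq_of_lt hj]
  simp only [matOf, Matrix.of_apply, asgOf]
  rw [dif_pos ⟨by rw [h1]; exact i.2, by rw [h2]; exact hj⟩]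
  congr 1
  · exact Fin.ext h1
  · exact Fin.ext h2

theorem exists_mat {n : ℕ} {P : Matrix (Fin n) (Fin n) ℝ → Prop} :
    (∃ Q, P Q) ↔ ∃ x, P (matOf n x) :=
  ⟨fun ⟨Q, h⟩ => ⟨asgOf Q, by rwa [matOf_asgOf]⟩, fun ⟨x, h⟩ => ⟨_, h⟩⟩

theorem list_sum_range (n : ℕ) (f : ℕ → ℝ) :
    ((List.range n).map f).sum = ∑ i : Fin n, f i.1 := by
  rw [Fin.sum_univ_eq_sum_range]
  rfl

theorem holds_rowF (x : ℕ → ℝ) {n : ℕ} (i k : Fin n) : (rowF n i.1 k.1).Holds x ↔
    (matOf n x * (matOf n x).transpose) i k = (1 : Matrix (Fin n) (Fin n) ℝ) i k := by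
  rw [Matrix.mul_apply]
  simp only [rowF, Fm.Holds, eval_sumTm, List.map_map, matOf, Matrix.transpose_apply,
    Matrix.of_apply]
  rw [list_sum_range]
  have h1 : (dlt i.1 k.1).eval x = (1 : Matrix (Fin n) (Fin n) ℝ) i k := by
    unfold dlt
    by_cases h : i = k
    · subst h
      simp [Tm.eval]
    · have h' : i.1 ≠ k.1 := fun e => h (Fin.ext e)
      rw [if_neg h', Matrix.one_apply_ne h]
      rfl
  rw [h1]
  rfl

theorem holds_entF (x : ℕ → ℝ) {n : ℕ} (i j : Fin n) (b : Bool) : (entF n i.1 j.1 b).Holds x ↔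
    (matOf n x i j ≠ 0 ↔ b = true) := by
  unfold entF
  cases b
  · simp [Fm.Holds, ev, Tm.eval, matOf]
  · simp [Fm.Holds, ev, Tm.eval, matOf]

/-- the conditions on an orthogonal matrix with a given pattern -/
def suppC (B : List (List ℕ)) : List Fm :=
  allPairs B.length (fun i k => rowF B.length i k) ++
    allPairs B.length (fun i j => entF B.length i j (decide (j ∈ B.getD i [])))

/-- a boolean test for having an edge -/
def hasEdge (L : List (List ℕ)) : Bool := L.any fun l => decide (0 < l.length)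

/-- the conditions on a symmetric orthogonal matrix with a given graph -/
def twoC (L : List (List ℕ)) : List Fm :=
  (allPairs L.length (fun i k => rowF L.length i k) ++
    allPairs L.length (fun i j => Fm.eq (ev L.length i j) (ev L.length j i))) ++
    allPairs L.length (fun i j => if i = j then tt else
      entF L.length i j (decide (j ∈ L.getD i [])))

/-- the formula for graphs with two distinct eigenvalues -/
def twoF (L : List (List ℕ)) : Fm :=
  if (chk L && hasEdge L) = true then conj (twoC L) else ff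

theorem holds_conj_append (x : ℕ → ℝ) (l l' : List Fm) :
    (conj (l ++ l')).Holds x ↔ (conj l).Holds x ∧ (conj l').Holds x := by
  simp only [holds_conj, List.mem_append, or_imp, forall_and]

theorem holds_orth (x : ℕ → ℝ) (n : ℕ) :
    (conj (allPairs n (fun i k => rowF n i k))).Holds x ↔
      matOf n x * (matOf n x).transpose = 1 := by
  rw [holds_allPairs]
  constructor
  · intro h
    ext i k
    exact (holds_rowF x i k).1 (h i.1 i.2 k.1 k.2)
  · intro h i hi k hk
    exact (holds_rowF x ⟨i, hi⟩ ⟨k, hk⟩).2 (by rw [h])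

theorem suppC_correct (B : List (List ℕ)) : IsSupport B ↔ ETR (conj (suppC B)) := by
  unfold IsSupport ETR
  rw [exists_mat]
  refine exists_congr fun x => ?_
  rw [suppC, holds_conj_append, holds_orth, holds_allPairs]
  refine and_congr_right fun _ => ?_
  constructor
  · intro h i hi j hj
    exact (holds_entF x ⟨i, hi⟩ ⟨j, hj⟩ _).2 (by rw [h]; simp)
  · intro h i j
    have h1 := (holds_entF x i j _).1 (h i.1 i.2 j.1 j.2)
    rw [h1]
    simp

theorem hasEdge_iff {L : List (List ℕ)} (h : IsGraph L) :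
    hasEdge L = true ↔ ∃ i j, (graphOf L h).Adj i j := by
  simp only [hasEdge, List.any_eq_true, decide_eq_true_eq, List.length_pos_iff]
  constructor
  · rintro ⟨l, hl, hne⟩
    obtain ⟨i, hi, rfl⟩ := List.getElem_of_mem hl
    obtain ⟨j, hj⟩ := List.exists_mem_of_ne_nil _ hne
    have hj' : j ∈ L.getD i [] := by rwa [List.getD_eq_getElem _ _ hi]
    exact ⟨⟨i, hi⟩, ⟨j, (h i j hi hj').1⟩, hj'⟩
  · rintro ⟨i, j, hij⟩
    have hij' : j.1 ∈ L.getD i.1 [] := hij
    rw [List.getD_eq_getElem _ _ i.2] at hij'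
    exact ⟨L[i.1], List.getElem_mem _, List.ne_nil_of_mem hij'⟩

theorem twoF_correct (L : List (List ℕ)) : HasTwo L ↔ ETR (twoF L) := by
  unfold twoF
  by_cases hc : (chk L && hasEdge L) = true
  · rw [if_pos hc]
    rw [Bool.and_eq_true] at hc
    have hG := (chk_iff L).1 hc.1
    have h1 : HasTwo L ↔ qNum (graphOf L hG) = 2 := ⟨fun ⟨_, h⟩ => h, fun h => ⟨hG, h⟩⟩
    rw [h1, qNum_eq_two, and_iff_right ((hasEdge_iff hG).1 hc.2)]
    unfold ETR
    rw [exists_mat]
    refine exists_congr fun x => ?_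
    rw [twoC, holds_conj_append, holds_conj_append, holds_orth, holds_allPairs, holds_allPairs]
    constructor
    · rintro ⟨⟨h2, h3⟩, h4⟩
      have h5 : (matOf L.length x).transpose = matOf L.length x := h2
      refine ⟨⟨by rw [h5]; exact h4, fun i hi j hj => ?_⟩, fun i hi j hj => ?_⟩
      · have h6 := congrFun (congrFun h5 ⟨j, hj⟩) ⟨i, hi⟩
        rw [Matrix.transpose_apply] at h6
        exact h6
      · by_cases hij : i = j
        · rw [if_pos hij]
          exact holds_tt x
        · rw [if_neg hij, holds_entF x ⟨i, hi⟩ ⟨j, hj⟩]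
          rw [h3 ⟨i, hi⟩ ⟨j, hj⟩ (fun e => hij (Fin.mk.inj e))]
          simp only [decide_eq_true_eq]
          rfl
    · rintro ⟨⟨h2, h3⟩, h4⟩
      have h5 : (matOf L.length x).transpose = matOf L.length x := by
        ext i j
        rw [Matrix.transpose_apply]
        exact h3 j.1 j.2 i.1 i.2
      refine ⟨⟨h5, fun i j hij => ?_⟩, by rw [h5] at h2; exact h2⟩
      have h6 := h4 i.1 i.2 j.1 j.2
      rw [if_neg (fun e => hij (Fin.ext e)), holds_entF x i j] at h6
      rw [h6]
      simp only [decide_eq_true_eq]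
      rfl
  · rw [if_neg hc]
    constructor
    · rintro ⟨h, hq⟩
      rw [qNum_eq_two] at hq
      exact absurd (by rw [Bool.and_eq_true]; exact ⟨(chk_iff L).2 h, (hasEdge_iff h).2 hq.1⟩) hc
    · intro h
      exact absurd h not_etr_ff

/-! ### Polynomial time -/

section

variable {α : Type} [TEnc α]

theorem poly_ev {n i j : α → ℕ} (hn : Poly n) (hi : Poly i) (hj : Poly j) :
    Poly (fun a => ev (n a) (i a) (j a)) := poly_tvar (Poly.add (Poly.mul hi hn) hj)

theorem poly_allPairs {n : α → ℕ} {F : α → ℕ → ℕ → Fm} (hn : UPoly n)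
    (hF : Poly (fun p : (α × ℕ) × ℕ => F p.1.1 p.1.2 p.2)) :
    Poly (fun a => allPairs (n a) (F a)) := by
  unfold allPairs
  refine Poly.flatMap (F := fun a i => (List.range (n a)).map fun j => F a i j) hn.range ?_
  exact Poly.map (F := fun (q : α × ℕ) j => F q.1 q.2 j) (UPoly.range (hn.comp
    (Poly.fst Poly.id))) hF

theorem poly_rowF {n i k : α → ℕ} (hn : UPoly n) (hi : Poly i) (hk : Poly k) :
    Poly (fun a => rowF (n a) (i a) (k a)) := by
  unfold rowF
  refine poly_eq (poly_sumTm (Poly.map (F := fun a j => Tm.mul (ev (n a) (i a) j)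
    (ev (n a) (k a) j)) hn.range ?_)) (Poly.ite (Poly.decide_eq hi hk) (Poly.const _)
    (Poly.const _))
  have h1 : Poly (fun p : α × ℕ => p.1) := Poly.fst Poly.id
  exact poly_tmul (poly_ev (hn.toPoly.comp h1) (hi.comp h1) (Poly.snd Poly.id))
    (poly_ev (hn.toPoly.comp h1) (hk.comp h1) (Poly.snd Poly.id))

theorem poly_entF {n i j : α → ℕ} {b : α → Bool} (hn : Poly n) (hi : Poly i) (hj : Poly j)
    (hb : Poly b) : Poly (fun a => entF (n a) (i a) (j a) (b a)) :=
  Poly.ite (p := fun a => b a = true) (Poly.decide_bool hb)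
    (poly_not (poly_eq (poly_ev hn hi hj) (Poly.const _)))
    (poly_eq (poly_ev hn hi hj) (Poly.const _))

end

theorem poly_suppC : Poly suppC := by
  have hn : UPoly (fun B : List (List ℕ) => B.length) := UPoly.length Poly.id
  have hL : Poly (fun p : (List (List ℕ) × ℕ) × ℕ => p.1.1) := Poly.fst (Poly.fst Poly.id)
  have hi : Poly (fun p : (List (List ℕ) × ℕ) × ℕ => p.1.2) := Poly.snd (Poly.fst Poly.id)
  have hj : Poly (fun p : (List (List ℕ) × ℕ) × ℕ => p.2) := Poly.snd Poly.id
  refine Poly.append (poly_allPairs hn (poly_rowF (UPoly.length hL) hi hj))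
    (poly_allPairs hn (poly_entF (Poly.length hL) hi hj (Poly.decide_mem hj
      (Poly.getD hL hi (Poly.const _)))))

theorem poly_twoF : Poly twoF := by
  have hn : UPoly (fun B : List (List ℕ) => B.length) := UPoly.length Poly.id
  have hL : Poly (fun p : (List (List ℕ) × ℕ) × ℕ => p.1.1) := Poly.fst (Poly.fst Poly.id)
  have hi : Poly (fun p : (List (List ℕ) × ℕ) × ℕ => p.1.2) := Poly.snd (Poly.fst Poly.id)
  have hj : Poly (fun p : (List (List ℕ) × ℕ) × ℕ => p.2) := Poly.snd Poly.id
  refine Poly.ite (p := fun L => (chk L && hasEdge L) = true) (Poly.decide_bool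
    (Poly.and poly_chk (Poly.any (p := fun (_ : List (List ℕ)) (l : List ℕ) => decide (0 < l.length))
      Poly.id (Poly.decide_lt (Poly.const 0) (Poly.length (Poly.snd Poly.id)))))) (poly_conj ?_) (Poly.const _)
  refine Poly.append (Poly.append (poly_allPairs hn (poly_rowF (UPoly.length hL) hi hj))
    (poly_allPairs hn (poly_eq (poly_ev (Poly.length hL) hi hj) (poly_ev (Poly.length hL) hj hi))))
    (poly_allPairs hn (Poly.ite (Poly.decide_eq hi hj) (Poly.const _)
      (poly_entF (Poly.length hL) hi hj (Poly.decide_mem hj (Poly.getD hL hi (Poly.const _))))))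

theorem mem_S : InER OrthSupport := InER.of_poly (poly_conj poly_suppC) suppC_correct

theorem mem_T : InER TwoEigenvalues := InER.of_poly poly_twoF twoF_correct

end Pool.Agent.NPC.TH925OS
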