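import Pool.Agent.TH925.OS.Hard
import Pool.Agent.TH925.OS.Mem
import Pool.Agent.ER.Dec
import Pool.Agent.NPC.Sat
import Pool.Agent.H622R2.CoNP

/-!
# `NP ⊆ ∃ℝ` and the final statement
-/

namespace Pool.Agent.NPC.TH925OS

open Pool.Agent.TH925.OS Pool.Agent.NPC.ER Pool.Agent.NPC.H670R2

/-- the formula of a literal -/
def litF (l : Bool × ℕ) : Fm :=
  if l.1 = true then Fm.eq (Tm.var l.2) Tm.one else Fm.not (Fm.eq (Tm.var l.2) Tm.one)

/-- the formula of a propositional formula -/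
def satF (φ : List (List (Bool × ℕ))) : Fm := conj (φ.map fun c => disj (c.map litF))

theorem satF_correct (φ : List (List (Bool × ℕ))) : SAT φ ↔ ETR (satF φ) := by
  classical
  have key : ∀ (x : ℕ → ℝ) (l : Bool × ℕ), (litF l).Holds x ↔ decide (x l.2 = 1) = l.1 := by
    rintro x ⟨b, i⟩
    unfold litF
    cases b <;> simp [Fm.Holds, Tm.eval]
  have key2 : ∀ x : ℕ → ℝ, (satF φ).Holds x ↔ ∀ c ∈ φ, ∃ l ∈ c, decide (x l.2 = 1) = l.1 := by
    intro x
    rw [satF, holds_conj]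
    simp only [List.mem_map, forall_exists_index, and_imp, forall_apply_eq_imp_iff₂, holds_disj,
      exists_exists_and_eq_and, key]
  constructor
  · rintro ⟨τ, hτ⟩
    refine ⟨fun i => if τ i = true then 1 else 0, (key2 _).2 fun c hc => ?_⟩
    obtain ⟨l, hl, h⟩ := hτ c hc
    refine ⟨l, hl, ?_⟩
    rw [← h]
    cases τ l.2 <;> simp
  · rintro ⟨x, hx⟩
    exact ⟨fun i => decide (x i = 1), (key2 x).1 hx⟩

theorem poly_litF {α : Type} [TEnc α] {l : α → Bool × ℕ} (hl : Poly l) :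
    Poly (fun a => litF (l a)) :=
  Poly.ite (p := fun a => (l a).1 = true) (Poly.decide_bool (Poly.fst hl))
    (poly_eq (poly_tvar (Poly.snd hl)) (Poly.const _))
    (poly_not (poly_eq (poly_tvar (Poly.snd hl)) (Poly.const _)))

theorem poly_satF : Poly satF := by
  refine poly_conj (Poly.map (F := fun _ (c : List (Bool × ℕ)) => disj (c.map litF)) Poly.id ?_)
  exact poly_disj (Poly.map (F := fun _ l => litF l) (Poly.snd Poly.id)
    (poly_litF (Poly.snd Poly.id)))

/-- `NP ⊆ ∃ℝ`. -/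
theorem np_sub {A : Set (List Bool)} (h : InNP A) : InER A :=
  (Pool.Agent.NPC.ER.InER.of_poly poly_satF satF_correct).of_reduces (npHard_SAT A h)

/-- An `∃ℝ`-complete language is in `NP` if and only if `NP = ∃ℝ`. -/
theorem np_eq_iff {L : Set (List Bool)} (h : ERComplete L) :
    (∀ A, InNP A ↔ InER A) ↔ InNP L :=
  ⟨fun h1 => (h1 L).2 h.1, fun h1 A => ⟨np_sub, fun h2 =>
    Pool.Agent.H622R2.InNP.of_reduces (h.2 A h2) h1⟩⟩

end Pool.Agent.NPC.TH925OS
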