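import Pool.Agent.TH925.OS.Two
import Pool.Agent.TH925.OS.Red

/-!
# Bipartite graphs with two distinct eigenvalues
-/

namespace Pool.Agent.TH925.OS

open Matrix

/-- Adjacency in the bipartite graph of the pattern `S`, rows `0, …, n - 1`, columns
`n, …, 2 n - 1`. -/
def BipAdj (n : ℕ) (S : ℕ → ℕ → Bool) (a b : ℕ) : Prop :=
  (a < n ∧ n ≤ b ∧ S a (b - n) = true) ∨ (n ≤ a ∧ b < n ∧ S b (a - n) = true)

theorem bipAdj_lr {n : ℕ} {S : ℕ → ℕ → Bool} (i j : Fin n) :
    BipAdj n S (Fin.castAdd n i).1 (Fin.natAdd n j).1 ↔ S i.1 j.1 = true := by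
  have := i.2
  have := j.2
  simp only [BipAdj, Fin.val_castAdd, Fin.val_natAdd]
  rw [Nat.add_sub_cancel_left]
  constructor
  · rintro (⟨-, -, h⟩ | ⟨h, -, -⟩)
    · exact h
    · omega
  · intro h
    exact Or.inl ⟨by omega, by omega, h⟩

theorem bipAdj_ll {n : ℕ} {S : ℕ → ℕ → Bool} (i k : Fin n) :
    ¬ BipAdj n S (Fin.castAdd n i).1 (Fin.castAdd n k).1 := by
  have := i.2
  have := k.2
  simp only [BipAdj, Fin.val_castAdd]
  omega

theorem bipAdj_rr {n : ℕ} {S : ℕ → ℕ → Bool} (i k : Fin n) :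
    ¬ BipAdj n S (Fin.natAdd n i).1 (Fin.natAdd n k).1 := by
  simp only [BipAdj, Fin.val_natAdd]
  omega

theorem bip_forward {n : ℕ} {S : ℕ → ℕ → Bool} (hn : 0 < n)
    (hfull : ∃ i < n, ∀ j < n, S i j = true) (hrow : ∀ i < n, ∃ j < n, S i j = true)
    {G : SimpleGraph (Fin (n + n))} (hG : ∀ a b, G.Adj a b ↔ BipAdj n S a.1 b.1)
    {M : Matrix (Fin (n + n)) (Fin (n + n)) ℝ} (hM : M ∈ SymOf G) (hMM : M * M = 1) :
    SuppReal n S := by
  obtain ⟨hsym, hpat⟩ := hM
  have hne : ∀ i j : Fin n, Fin.castAdd n i ≠ Fin.natAdd n j := by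
    intro i j h
    have h1 := congrArg Fin.val h
    have := i.2
    simp only [Fin.val_castAdd, Fin.val_natAdd] at h1
    omega
  have hpat' : ∀ i j : Fin n, M (Fin.castAdd n i) (Fin.natAdd n j) ≠ 0 ↔ S i.1 j.1 = true := by
    intro i j
    rw [hpat _ _ (hne i j), hG, bipAdj_lr]
  have h11 : ∀ i k : Fin n, i ≠ k → M (Fin.castAdd n i) (Fin.castAdd n k) = 0 := by
    intro i k hik
    by_contra h
    have h1 : Fin.castAdd n i ≠ Fin.castAdd n k := fun e => hik (Fin.castAdd_injective _ _ e)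
    exact bipAdj_ll i k ((hG _ _).1 ((hpat _ _ h1).1 h))
  have h22 : ∀ i k : Fin n, i ≠ k → M (Fin.natAdd n i) (Fin.natAdd n k) = 0 := by
    intro i k hik
    by_contra h
    have h1 : Fin.natAdd n i ≠ Fin.natAdd n k := fun e => hik (Fin.natAdd_injective _ _ e)
    exact bipAdj_rr i k ((hG _ _).1 ((hpat _ _ h1).1 h))
  have hs : ∀ a b, M a b = M b a := fun a b => congrFun (congrFun hsym b) a
  have hmul : ∀ a b, (∑ i : Fin n, M a (Fin.castAdd n i) * M (Fin.castAdd n i) b) +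
      ∑ j : Fin n, M a (Fin.natAdd n j) * M (Fin.natAdd n j) b = (1 : Matrix _ _ ℝ) a b := by
    intro a b
    rw [← hMM, Matrix.mul_apply, Fin.sum_univ_add]
  -- the diagonal
  have hd : ∀ i j : Fin n, S i.1 j.1 = true →
      M (Fin.natAdd n j) (Fin.natAdd n j) = - M (Fin.castAdd n i) (Fin.castAdd n i) := by
    intro i j hij
    have h1 := hmul (Fin.castAdd n i) (Fin.natAdd n j)
    rw [Matrix.one_apply_ne (hne i j)] at h1
    rw [Finset.sum_eq_single i (fun k _ hk => by rw [h11 i k hk.symm, zero_mul])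
      (fun h => absurd (Finset.mem_univ _) h)] at h1
    rw [Finset.sum_eq_single j (fun k _ hk => by rw [h22 k j hk, mul_zero])
      (fun h => absurd (Finset.mem_univ _) h)] at h1
    have h2 : M (Fin.castAdd n i) (Fin.natAdd n j) *
      (M (Fin.castAdd n i) (Fin.castAdd n i) + M (Fin.natAdd n j) (Fin.natAdd n j)) = 0 := by
      linarith
    rcases mul_eq_zero.1 h2 with h3 | h3
    · exact absurd h3 ((hpat' i j).2 hij)
    · linarith
  obtain ⟨i₀, hi₀, hfull⟩ := hfull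
  set d : ℝ := M (Fin.castAdd n ⟨i₀, hi₀⟩) (Fin.castAdd n ⟨i₀, hi₀⟩) with hd0
  have hd2 : ∀ j : Fin n, M (Fin.natAdd n j) (Fin.natAdd n j) = -d := fun j =>
    hd ⟨i₀, hi₀⟩ j (hfull j.1 j.2)
  have hd1 : ∀ i : Fin n, M (Fin.castAdd n i) (Fin.castAdd n i) = d := by
    intro i
    obtain ⟨j, hj, hij⟩ := hrow i.1 i.2
    have h1 := hd i ⟨j, hj⟩ hij
    rw [hd2] at h1
    linarith
  have hCC : ∀ i k : Fin n, ∑ j : Fin n, M (Fin.castAdd n i) (Fin.natAdd n j) *
      M (Fin.castAdd n k) (Fin.natAdd n j) = if i = k then 1 - d * d else 0 := by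
    intro i k
    have h1 := hmul (Fin.castAdd n i) (Fin.castAdd n k)
    rw [Finset.sum_eq_single i (fun l _ hl => by rw [h11 i l hl.symm, zero_mul])
      (fun h => absurd (Finset.mem_univ _) h)] at h1
    have h2 : ∑ j : Fin n, M (Fin.castAdd n i) (Fin.natAdd n j) *
      M (Fin.castAdd n k) (Fin.natAdd n j) = ∑ j : Fin n, M (Fin.castAdd n i) (Fin.natAdd n j) *
      M (Fin.natAdd n j) (Fin.castAdd n k) :=
      Finset.sum_congr rfl fun j _ => by rw [hs (Fin.castAdd n k) (Fin.natAdd n j)]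
    rw [h2]
    by_cases hik : i = k
    · subst hik
      rw [if_pos rfl]
      rw [Matrix.one_apply_eq, hd1] at h1
      linarith
    · rw [if_neg hik]
      have h3 : Fin.castAdd n i ≠ Fin.castAdd n k := fun e => hik (Fin.castAdd_injective _ _ e)
      rw [Matrix.one_apply_ne h3, h11 i k hik, mul_zero] at h1
      linarith
  have hpos : 0 < 1 - d * d := by
    have h1 := hCC ⟨i₀, hi₀⟩ ⟨i₀, hi₀⟩
    rw [if_pos rfl] at h1
    rw [← h1]
    refine Finset.sum_pos (fun j _ => ?_) ⟨⟨0, hn⟩, Finset.mem_univ _⟩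
    exact mul_self_pos.2 ((hpat' ⟨i₀, hi₀⟩ j).2 (hfull j.1 j.2))
  have hsq : √(1 - d * d) ≠ 0 := (Real.sqrt_pos.2 hpos).ne'
  have hsq2 : √(1 - d * d) * √(1 - d * d) = 1 - d * d := Real.mul_self_sqrt hpos.le
  refine ⟨Matrix.of fun i j => (√(1 - d * d))⁻¹ * M (Fin.castAdd n i) (Fin.natAdd n j), ?_,
    fun i j => ?_⟩
  · ext i k
    rw [Matrix.mul_apply, Matrix.one_apply]
    simp only [Matrix.transpose_apply, Matrix.of_apply]
    have h1 : ∀ j : Fin n, (√(1 - d * d))⁻¹ * M (Fin.castAdd n i) (Fin.natAdd n j) *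
        ((√(1 - d * d))⁻¹ * M (Fin.castAdd n k) (Fin.natAdd n j)) =
        (1 - d * d)⁻¹ * (M (Fin.castAdd n i) (Fin.natAdd n j) *
          M (Fin.castAdd n k) (Fin.natAdd n j)) := by
      intro j
      have : (1 - d * d)⁻¹ = (√(1 - d * d))⁻¹ * (√(1 - d * d))⁻¹ := by
        rw [← mul_inv, hsq2]
      rw [this]
      ring
    simp only [h1]
    rw [← Finset.mul_sum, hCC]
    by_cases hik : i = k
    · rw [if_pos hik, if_pos hik, inv_mul_cancel₀ hpos.ne']
    · rw [if_neg hik, if_neg hik, mul_zero]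
  · rw [Matrix.of_apply, ← hpat']
    constructor
    · exact fun h => right_ne_zero_of_mul h
    · exact fun h => mul_ne_zero (inv_ne_zero hsq) h

theorem bip_backward {n : ℕ} {S : ℕ → ℕ → Bool}
    {G : SimpleGraph (Fin (n + n))} (hG : ∀ a b, G.Adj a b ↔ BipAdj n S a.1 b.1)
    (h : SuppReal n S) : ∃ M ∈ SymOf G, M * M = 1 := by
  obtain ⟨Q, hQ1, hQ2⟩ := h
  have hQ3 : Q.transpose * Q = 1 := mul_eq_one_comm.1 hQ1
  refine ⟨(fromBlocks 0 Q Q.transpose 0).submatrix finSumFinEquiv.symm finSumFinEquiv.symm,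
    ⟨?_, fun a b hab => ?_⟩, ?_⟩
  · unfold Matrix.IsSymm
    rw [transpose_submatrix, fromBlocks_transpose]
    simp
  · rw [hG]
    obtain ⟨a, rfl⟩ := finSumFinEquiv.surjective a
    obtain ⟨b, rfl⟩ := finSumFinEquiv.surjective b
    rw [submatrix_apply, Equiv.symm_apply_apply, Equiv.symm_apply_apply]
    rcases a with a | a <;> rcases b with b | b
    · rw [fromBlocks_apply₁₁, finSumFinEquiv_apply_left, finSumFinEquiv_apply_left]
      exact ⟨fun h => absurd rfl h, fun h => absurd h (bipAdj_ll a b)⟩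
    · rw [fromBlocks_apply₁₂, finSumFinEquiv_apply_left, finSumFinEquiv_apply_right, bipAdj_lr]
      exact hQ2 a b
    · rw [fromBlocks_apply₂₁, finSumFinEquiv_apply_left, finSumFinEquiv_apply_right,
        transpose_apply, hQ2 b a, ← bipAdj_lr (S := S) b a]
      unfold BipAdj
      tauto
    · rw [fromBlocks_apply₂₂, finSumFinEquiv_apply_right, finSumFinEquiv_apply_right]
      exact ⟨fun h => absurd rfl h, fun h => absurd h (bipAdj_rr a b)⟩
  · rw [submatrix_mul_equiv, fromBlocks_multiply]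
    simp only [Matrix.zero_mul, Matrix.mul_zero, zero_add, add_zero, hQ1, hQ3]
    rw [fromBlocks_one, submatrix_one_equiv]

end Pool.Agent.TH925.OS
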