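import Pool.Agent.TH925.OS.LemmaK

/-!
# Completion of orthonormal rows by rows without zero entries
-/

namespace Pool.Agent.TH925.OS

open Module Submodule

/-- Orthonormal vectors whose span contains no standard basis vector can be completed to an
orthonormal basis by vectors without zero coordinate. -/
theorem completion {κ : Type} [Fintype κ] [DecidableEq κ] {R N : ℕ} (hN : Fintype.card κ = N)
    (a : Fin R → EuclideanSpace ℝ κ) (ha : Orthonormal ℝ a)
    (hgen : ∀ c, EuclideanSpace.single c (1 : ℝ) ∉ span ℝ (Set.range a)) :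
    ∃ Q : Fin N → EuclideanSpace ℝ κ, Orthonormal ℝ Q ∧
      (∀ (i : Fin N) (h : i.1 < R), Q i = a ⟨i.1, h⟩) ∧
      ∀ i : Fin N, R ≤ i.1 → ∀ c, Q i c ≠ 0 := by
  classical
  set S : Submodule ℝ (EuclideanSpace ℝ κ) := span ℝ (Set.range a) with hS
  have hSd : finrank ℝ S = R := by
    rw [hS, finrank_span_eq_card ha.linearIndependent, Fintype.card_fin]
  have hWd : finrank ℝ (Sᗮ : Submodule ℝ (EuclideanSpace ℝ κ)) = N - R := by
    have h1 := Submodule.finrank_add_finrank_orthogonal S
    rw [hSd, finrank_euclideanSpace, hN] at h1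
    omega
  obtain ⟨f, hf1, hf2⟩ := exists_generic (N - R) (Sᗮ : Submodule ℝ (EuclideanSpace ℝ κ)) hWd
    (Finset.univ.image fun c => (Sᗮ : Submodule ℝ (EuclideanSpace ℝ κ)).orthogonalProjectionOnto
      (EuclideanSpace.single c (1 : ℝ))) (by
        intro p hp h
        obtain ⟨c, -, rfl⟩ := Finset.mem_image.1 hp
        rw [orthogonalProjectionOnto_eq_zero_iff, orthogonal_orthogonal] at h
        exact hgen c h)
  have hcross : ∀ (i : Fin R) (j : Fin (N - R)), inner ℝ (a i) (f j : EuclideanSpace ℝ κ) = 0 :=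
    fun i j => (mem_orthogonal S _).1 (f j).2 _ (subset_span ⟨i, rfl⟩)
  have hlt : ∀ i : Fin N, ¬ i.1 < R → i.1 - R < N - R := fun i h => by
    have := i.2
    omega
  refine ⟨fun i => if h : i.1 < R then a ⟨i.1, h⟩ else (f ⟨i.1 - R, hlt i h⟩ :
    EuclideanSpace ℝ κ), ⟨fun i => ?_, fun i j hij => ?_⟩, fun i h => ?_, fun i h c => ?_⟩
  · by_cases h : i.1 < R
    · simp only [dif_pos h]
      exact ha.1 _
    · simp only [dif_neg h]
      exact hf1.1 _
  · by_cases hi : i.1 < R <;> by_cases hj : j.1 < R
    · simp only [dif_pos hi, dif_pos hj]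
      exact ha.2 fun h => hij (Fin.ext (Fin.mk.inj h))
    · simp only [dif_pos hi, dif_neg hj]
      exact hcross _ _
    · simp only [dif_neg hi, dif_pos hj]
      rw [real_inner_comm]
      exact hcross _ _
    · simp only [dif_neg hi, dif_neg hj]
      refine hf1.2 fun h => hij (Fin.ext ?_)
      have h1 := congrArg Fin.val h
      simp only at h1
      omega
  · simp only [dif_pos h]
  · have h' : ¬ i.1 < R := by omega
    simp only [dif_neg h']
    have h1 := hf2 ⟨i.1 - R, hlt i h'⟩ _ (Finset.mem_image_of_mem _ (Finset.mem_univ c))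
    rw [inner_orthogonalProjectionOnto_eq_of_mem_left] at h1
    rw [EuclideanSpace.inner_single_right] at h1
    simpa using h1

end Pool.Agent.TH925.OS
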