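import Pool.Agent.TH925.OS.Completion

/-!
# Patterns of orthogonal matrices encoding orthogonality relations in `ℝ³`

`R` rows with three core columns and two private columns for every pair of rows.
-/

namespace Pool.Agent.TH925.OS

open Module Submodule

/-- The columns: three core columns, and two columns for every pair of rows. -/
abbrev Col (R : ℕ) : Type := Fin 3 ⊕ ((Fin R × Fin R) × Fin 2)

/-- The three-dimensional space. -/
abbrev E3 : Type := EuclideanSpace ℝ (Fin 3)

/-- The support of the first `R` rows. -/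
def suppK {R : ℕ} (τ : Fin R → Fin R → ℕ) (i : Fin R) : Col R → Prop
  | Sum.inl _ => True
  | Sum.inr q => (q.1.1 < q.1.2 ∧ q.2.1 < τ q.1.1 q.1.2) ∧ (i = q.1.1 ∨ i = q.1.2)

/-- The orthogonality relations imposed by the types. -/
def Rel {R : ℕ} (τ : Fin R → Fin R → ℕ) (w : Fin R → E3) : Prop :=
  (∀ i j, w i j ≠ 0) ∧ ∀ i k, i < k → (τ i k = 0 → inner ℝ (w i) (w k) = 0) ∧
    (τ i k = 1 → inner ℝ (w i) (w k) ≠ 0)

theorem sum_col {R : ℕ} (f : Col R → ℝ) : ∑ c, f c = ∑ j : Fin 3, f (Sum.inl j) +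
    ∑ p : Fin R × Fin R, ∑ s : Fin 2, f (Sum.inr (p, s)) := by
  rw [Fintype.sum_sum_type, Fintype.sum_prod_type]

/-- Two rows with the prescribed supports: only the core columns and the private columns of the
pair contribute to the inner product. -/
theorem sum_pair {R : ℕ} {τ : Fin R → Fin R → ℕ} {a : Fin R → Col R → ℝ}
    (hs : ∀ i q, ¬ suppK τ i (Sum.inr q) → a i (Sum.inr q) = 0) {i k : Fin R} (hik : i < k) :
    ∑ c, a i c * a k c = ∑ j : Fin 3, a i (Sum.inl j) * a k (Sum.inl j) +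
      ∑ s : Fin 2, a i (Sum.inr ((i, k), s)) * a k (Sum.inr ((i, k), s)) := by
  rw [sum_col]
  congr 1
  refine Finset.sum_eq_single (i, k) (fun p _ hp => ?_) (fun h => absurd (Finset.mem_univ _) h)
  refine Finset.sum_eq_zero fun s _ => ?_
  by_cases h1 : suppK τ i (Sum.inr (p, s))
  · by_cases h2 : suppK τ k (Sum.inr (p, s))
    · exfalso
      obtain ⟨⟨h3, -⟩, h4⟩ := h1
      obtain ⟨-, h5⟩ := h2
      simp only at h3 h4 h5
      apply hp
      rcases h4 with h4 | h4 <;> rcases h5 with h5 | h5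
      · rw [h4, h5] at hik
        exact absurd hik (lt_irrefl _)
      · exact Prod.ext h4.symm h5.symm
      · rw [h4, h5] at hik
        exact absurd (hik.trans h3) (lt_irrefl _)
      · rw [h4, h5] at hik
        exact absurd hik (lt_irrefl _)
    · rw [hs k (p, s) h2, mul_zero]
  · rw [hs i (p, s) h1, zero_mul]

/-- The core parts of orthogonal rows with the prescribed supports satisfy the relations. -/
theorem extract {R : ℕ} {τ : Fin R → Fin R → ℕ} {a : Fin R → Col R → ℝ}
    (hs : ∀ i c, a i c ≠ 0 ↔ suppK τ i c) (ho : ∀ i k, i < k → ∑ c, a i c * a k c = 0) :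
    Rel τ (fun i => WithLp.toLp 2 fun j => a i (Sum.inl j)) := by
  refine ⟨fun i j => (hs i (Sum.inl j)).2 trivial, fun i k hik => ?_⟩
  have h1 := ho i k hik
  rw [sum_pair (τ := τ) (fun i q h => by_contra fun h2 => h ((hs i _).1 h2)) hik] at h1
  have h2 : inner ℝ (WithLp.toLp 2 (fun j => a i (Sum.inl j)) : E3)
      (WithLp.toLp 2 fun j => a k (Sum.inl j)) =
      ∑ j : Fin 3, a i (Sum.inl j) * a k (Sum.inl j) := by
    rw [PiLp.inner_apply]
    refine Finset.sum_congr rfl fun j _ => ?_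
    simp [mul_comm]
  rw [h2]
  rw [Fin.sum_univ_two (f := fun s => a i (Sum.inr ((i, k), s)) * a k (Sum.inr ((i, k), s)))] at h1
  constructor
  · intro h3
    have h4 : ∀ s : Fin 2, a i (Sum.inr ((i, k), s)) = 0 := fun s =>
      by_contra fun h => by
        have h5 := ((hs i _).1 h).1.2
        simp only [h3] at h5
        omega
    rw [h4, h4] at h1
    linarith
  · intro h3 h4
    have h5 : a i (Sum.inr ((i, k), 1)) = 0 := by_contra fun h => by
        have h5 := ((hs i _).1 h).1.2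
        simp only [h3] at h5
        exact absurd h5 (by decide)
    have h6 : a i (Sum.inr ((i, k), 0)) ≠ 0 := (hs i _).2 ⟨⟨hik, by simp [h3]⟩, Or.inl rfl⟩
    have h7 : a k (Sum.inr ((i, k), 0)) ≠ 0 := (hs k _).2 ⟨⟨hik, by simp [h3]⟩, Or.inr rfl⟩
    rw [h4, h5] at h1
    have : a i (Sum.inr ((i, k), 0)) * a k (Sum.inr ((i, k), 0)) = 0 := by linarith
    rcases mul_eq_zero.1 this with h | h
    · exact h6 h
    · exact h7 h

/-- The private entry of the second row of a pair. -/
noncomputable def hval {R : ℕ} (τ : Fin R → Fin R → ℕ) (w : Fin R → E3) (p : Fin R × Fin R)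
    (s : Fin 2) : ℝ :=
  if τ p.1 p.2 = 1 then - inner ℝ (w p.1) (w p.2)
  else if s = 0 then 1 + |inner ℝ (w p.1) (w p.2)|
  else - inner ℝ (w p.1) (w p.2) - (1 + |inner ℝ (w p.1) (w p.2)|)

open Classical in
/-- The rows built from core vectors. -/
noncomputable def row {R : ℕ} (τ : Fin R → Fin R → ℕ) (w : Fin R → E3) (i : Fin R) :
    Col R → ℝ
  | Sum.inl j => w i j
  | Sum.inr q => if q.1.1 < q.1.2 ∧ q.2.1 < τ q.1.1 q.1.2 then
      (if i = q.1.1 then 1 else if i = q.1.2 then hval τ w q.1 q.2 else 0) else 0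

theorem hval_ne {R : ℕ} {τ : Fin R → Fin R → ℕ} {w : Fin R → E3} (hw : Rel τ w)
    {p : Fin R × Fin R} (hp : p.1 < p.2) (s : Fin 2) : hval τ w p s ≠ 0 := by
  unfold hval
  split_ifs with h1 h2
  · exact neg_ne_zero.2 ((hw.2 _ _ hp).2 h1)
  · have := abs_nonneg (inner ℝ (w p.1) (w p.2))
    intro h
    linarith
  · have := neg_abs_le (inner ℝ (w p.1) (w p.2))
    intro h
    linarith

theorem row_supp {R : ℕ} {τ : Fin R → Fin R → ℕ} {w : Fin R → E3} (hw : Rel τ w) (i : Fin R)
    (c : Col R) : row τ w i c ≠ 0 ↔ suppK τ i c := by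
  rcases c with j | q
  · exact ⟨fun _ => trivial, fun _ => hw.1 i j⟩
  · unfold row suppK
    by_cases h1 : q.1.1 < q.1.2 ∧ q.2.1 < τ q.1.1 q.1.2
    · simp only [h1, true_and]
      by_cases h2 : i = q.1.1
      · simp [h2]
      · by_cases h3 : i = q.1.2
        · rw [if_pos trivial, if_neg h2, if_pos h3]
          exact ⟨fun _ => Or.inr h3, fun _ => hval_ne hw h1.1 _⟩
        · simp [h2, h3]
    · simp [h1]

theorem row_orth {R : ℕ} {τ : Fin R → Fin R → ℕ} {w : Fin R → E3} (hw : Rel τ w)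
    (hτ : ∀ i k, τ i k ≤ 2) {i k : Fin R} (hik : i < k) : ∑ c, row τ w i c * row τ w k c = 0 := by
  rw [sum_pair (τ := τ) (fun i q h => by_contra fun h2 => h ((row_supp hw i _).1 h2)) hik]
  have h2 : ∑ j : Fin 3, row τ w i (Sum.inl j) * row τ w k (Sum.inl j) =
      inner ℝ (w i) (w k) := by
    rw [PiLp.inner_apply]
    refine Finset.sum_congr rfl fun j _ => ?_
    simp [row, mul_comm]
  rw [h2, Fin.sum_univ_two]
  have hne : k ≠ i := ne_of_gt hik
  have h3 := hw.2 i k hik
  have h4 := hτ i k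
  unfold row
  simp only [hik, true_and, if_pos, hne, if_false, hval]
  rcases (by omega : τ i k = 0 ∨ τ i k = 1 ∨ τ i k = 2) with h | h | h
  · simp [h, h3.1 h]
  · simp [h]
  · simp [h]

/-- If every row takes part in two pairs of type two, then no standard basis vector is in the
span of the rows. -/
theorem single_notMem {R : ℕ} {τ : Fin R → Fin R → ℕ} {w : Fin R → E3}
    (h2 : ∀ (ρ : Fin R) (d : Fin R × Fin R), ∃ p : Fin R × Fin R, p.1 < p.2 ∧ τ p.1 p.2 = 2 ∧
      p ≠ d ∧ (p.1 = ρ ∨ p.2 = ρ)) (c : Col R) :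
    EuclideanSpace.single c (1 : ℝ) ∉
      span ℝ (Set.range fun i => (WithLp.toLp 2 (row τ w i) : EuclideanSpace ℝ (Col R))) := by
  intro h
  obtain ⟨l, hl⟩ := (mem_span_range_iff_exists_fun ℝ).1 h
  have hl' : ∀ c' : Col R, ∑ i, l i * row τ w i c' = if c' = c then 1 else 0 := by
    intro c'
    have h1 := congrArg (fun v : EuclideanSpace ℝ (Col R) => v c') hl
    simpa [PiLp.single_apply] using h1
  have hcoord : ∀ p : Fin R × Fin R, p.1 < p.2 → τ p.1 p.2 = 2 → ∀ s : Fin 2,
      ∑ i, l i * row τ w i (Sum.inr (p, s)) = l p.1 + l p.2 * hval τ w p s := by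
    intro p hp ht s
    have hc : p.1 < p.2 ∧ s.1 < τ p.1 p.2 := ⟨hp, by rw [ht]; exact s.2⟩
    have hne : p.2 ≠ p.1 := ne_of_gt hp
    rw [Finset.sum_eq_add p.1 p.2 hne.symm]
    · simp [row, hc, hne]
    · rintro i - ⟨h1, h2⟩
      simp [row, h1, h2]
    · intro h; exact absurd (Finset.mem_univ _) h
    · intro h; exact absurd (Finset.mem_univ _) h
  have hzero : ∀ ρ, l ρ = 0 := by
    intro ρ
    set d : Fin R × Fin R := Sum.elim (fun _ => (ρ, ρ)) (fun q => q.1) c with hd
    obtain ⟨p, hp, ht, hpd, hρ⟩ := h2 ρ d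
    have hnc : ∀ s : Fin 2, (Sum.inr (p, s) : Col R) ≠ c := by
      intro s hs
      apply hpd
      rw [hd, ← hs]
      rfl
    have e0 := hl' (Sum.inr (p, 0))
    have e1 := hl' (Sum.inr (p, 1))
    rw [if_neg (hnc _), hcoord p hp ht] at e0 e1
    have hx : hval τ w p 0 = 1 + |inner ℝ (w p.1) (w p.2)| := by
      simp [hval, ht]
    have hy : hval τ w p 1 = - inner ℝ (w p.1) (w p.2) - (1 + |inner ℝ (w p.1) (w p.2)|) := by
      simp [hval, ht]
    have hpos := abs_nonneg (inner ℝ (w p.1) (w p.2))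
    have hneg := neg_abs_le (inner ℝ (w p.1) (w p.2))
    rw [hx] at e0
    rw [hy] at e1
    have hl2 : l p.2 = 0 := by
      have h3 : l p.2 * ((1 + |inner ℝ (w p.1) (w p.2)|) -
        (- inner ℝ (w p.1) (w p.2) - (1 + |inner ℝ (w p.1) (w p.2)|))) = 0 := by linarith
      rcases mul_eq_zero.1 h3 with h | h
      · exact h
      · exfalso; linarith
    have hl1 : l p.1 = 0 := by
      rw [hl2] at e0
      linarith
    rcases hρ with h | h
    · rw [← h]; exact hl1
    · rw [← h]; exact hl2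
  have h5 := hl' c
  simp [hzero] at h5

/-- Realisation: the pattern whose first rows are given by the types, with full remaining rows,
is the pattern of an orthogonal matrix as soon as there are core vectors. -/
theorem realise {R N : ℕ} {τ : Fin R → Fin R → ℕ} {w : Fin R → E3} (hw : Rel τ w)
    (hτ : ∀ i k, τ i k ≤ 2)
    (h2 : ∀ (ρ : Fin R) (d : Fin R × Fin R), ∃ p : Fin R × Fin R, p.1 < p.2 ∧ τ p.1 p.2 = 2 ∧
      p ≠ d ∧ (p.1 = ρ ∨ p.2 = ρ)) (hN : Fintype.card (Col R) = N) :
    ∃ Q : Fin N → Col R → ℝ, (∀ i k, ∑ c, Q i c * Q k c = if i = k then 1 else 0) ∧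
      ∀ i c, Q i c ≠ 0 ↔ ∀ h : i.1 < R, suppK τ ⟨i.1, h⟩ c := by
  classical
  set v : Fin R → EuclideanSpace ℝ (Col R) := fun i => WithLp.toLp 2 (row τ w i) with hv
  have hinner : ∀ (N : ℕ) (q : Fin N → EuclideanSpace ℝ (Col R)) (i k : Fin N),
      inner ℝ (q i) (q k) = ∑ c, q i c * q k c := by
    intro N q i k
    rw [PiLp.inner_apply]
    refine Finset.sum_congr rfl fun j _ => ?_
    simp [mul_comm]
  have hv0 : ∀ i, ‖v i‖ ≠ 0 := by
    intro i h
    rw [norm_eq_zero] at h
    have h1 := congrArg (fun u : EuclideanSpace ℝ (Col R) => u (Sum.inl 0)) h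
    exact hw.1 i 0 h1
  have hvo : ∀ i k, i < k → inner ℝ (v i) (v k) = 0 := by
    intro i k hik
    rw [hinner]
    exact row_orth hw hτ hik
  have hvo' : ∀ i k, i ≠ k → inner ℝ (v i) (v k) = 0 := by
    intro i k hik
    rcases lt_or_gt_of_ne hik with h | h
    · exact hvo i k h
    · rw [real_inner_comm]; exact hvo k i h
  set a : Fin R → EuclideanSpace ℝ (Col R) := fun i => ‖v i‖⁻¹ • v i with ha
  have hao : Orthonormal ℝ a := by
    refine ⟨fun i => ?_, fun i k hik => ?_⟩
    · rw [ha]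
      simp only
      rw [norm_smul, norm_inv, norm_norm, inv_mul_cancel₀ (hv0 i)]
    · rw [ha]
      simp only
      rw [real_inner_smul_left, real_inner_smul_right, hvo' i k hik]
      simp
  have hspan : span ℝ (Set.range a) ≤ span ℝ (Set.range v) := by
    rw [span_le]
    rintro _ ⟨i, rfl⟩
    exact smul_mem _ _ (subset_span ⟨i, rfl⟩)
  obtain ⟨Q, hQ1, hQ2, hQ3⟩ := completion hN a hao
    (fun c h => single_notMem (τ := τ) (w := w) h2 c (hspan h))
  refine ⟨fun i c => Q i c, fun i k => ?_, fun i c => ?_⟩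
  · rw [← hinner N Q i k]
    exact (orthonormal_iff_ite.1 hQ1) i k
  · by_cases h : i.1 < R
    · have h3 : Q i c = ‖v ⟨i.1, h⟩‖⁻¹ * row τ w ⟨i.1, h⟩ c := by
        rw [hQ2 i h]
        rfl
      simp only [h3, h, forall_true_left]
      rw [← row_supp hw]
      constructor
      · exact fun h4 => right_ne_zero_of_mul h4
      · exact fun h4 => mul_ne_zero (inv_ne_zero (hv0 _)) h4
    · exact ⟨fun _ h' => absurd h' h, fun _ => hQ3 i (by omega) c⟩

end Pool.Agent.TH925.OS
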