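import Pool.Agent.TH925.OS.Bip
import Pool.Agent.H670R2.Hard
import Pool.Agent.H670R2.OrthMem
import Pool.Agent.NPC.Dec

/-!
# `∃ℝ`-hardness
-/

namespace Pool.Agent.NPC.TH925OS

open Pool.Agent.TH925.OS Pool.Agent.NPC.ER Pool.Agent.H670R2 Pool.Agent.NPC.H670R2

/-- Boolean adjacency in the bipartite graph of a pattern. -/
def bipB (n : ℕ) (S : ℕ → ℕ → Bool) (a b : ℕ) : Bool :=
  (decide (a < n) && (decide (n ≤ b) && S a (b - n))) ||
    (decide (n ≤ a) && (decide (b < n) && S b (a - n)))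

theorem bipB_iff {n : ℕ} {S : ℕ → ℕ → Bool} {a b : ℕ} : bipB n S a b = true ↔ BipAdj n S a b := by
  simp [bipB, BipAdj]

theorem bipB_symm {n : ℕ} {S : ℕ → ℕ → Bool} {a b : ℕ} (h : bipB n S a b = true) :
    bipB n S b a = true := by
  rw [bipB_iff] at h ⊢
  unfold BipAdj at h ⊢
  tauto

theorem isGraph_patL {N : ℕ} {T : ℕ → ℕ → Bool} (h1 : ∀ a b, T a b = true → T b a = true)
    (h2 : ∀ a, ¬ T a a = true) : IsGraph (patL N T) := by
  intro u v hu hv
  rw [patL_length] at hu
  rw [mem_patL hu] at hv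
  rw [patL_length, mem_patL hv.1]
  exact ⟨hv.1, fun h => h2 u (h ▸ hv.2), hu, h1 _ _ hv.2⟩

/-- `HasTwo` with a number of vertices given by a formula. -/
theorem hasTwo_of_length {L : List (List ℕ)} {N : ℕ} (hN : L.length = N) (hL : IsGraph L)
    {G : SimpleGraph (Fin N)} (hG : ∀ a b, G.Adj a b ↔ b.1 ∈ L.getD a.1 []) :
    HasTwo L ↔ qNum G = 2 := by
  subst hN
  have : G = graphOf L hL := by
    ext a b
    exact hG a b
  subst this
  exact ⟨fun ⟨_, h⟩ => h, fun h => ⟨hL, h⟩⟩

theorem hasTwo_bip {n : ℕ} {S : ℕ → ℕ → Bool} (hn : 0 < n)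
    (hfull : ∃ i < n, ∀ j < n, S i j = true) (hrow : ∀ i < n, ∃ j < n, S i j = true) :
    HasTwo (patL (n + n) (bipB n S)) ↔ SuppReal n S := by
  have hirr : ∀ a, ¬ bipB n S a a = true := by
    intro a
    rw [bipB_iff]
    unfold BipAdj
    omega
  have hgr : IsGraph (patL (n + n) (bipB n S)) := isGraph_patL (fun a b => bipB_symm) hirr
  let G : SimpleGraph (Fin (n + n)) :=
    { Adj := fun a b => bipB n S a.1 b.1 = true
      symm := ⟨fun a b h => bipB_symm h⟩
      loopless := ⟨fun a h => hirr a.1 h⟩ }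
  have hG : ∀ a b, G.Adj a b ↔ BipAdj n S a.1 b.1 := fun a b => bipB_iff
  rw [hasTwo_of_length (patL_length _ _) hgr (G := G) (fun a b => by
    rw [mem_patL a.2]
    exact ⟨fun h => ⟨b.2, h⟩, fun h => h.2⟩), qNum_eq_two]
  constructor
  · rintro ⟨-, M, hM, hMM⟩
    exact bip_forward hn hfull hrow hG hM hMM
  · intro h
    refine ⟨?_, bip_backward hG h⟩
    obtain ⟨i, hi, hf⟩ := hfull
    refine ⟨Fin.castAdd n ⟨i, hi⟩, Fin.natAdd n ⟨0, hn⟩, ?_⟩
    rw [hG, bipAdj_lr]
    exact hf 0 hn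

/-- The number of rows of the pattern. -/
def sizeL (L : List (List ℕ)) : ℕ := nc (nr L.length)

/-- The pattern of a list. -/
def suppL (L : List (List ℕ)) : ℕ → ℕ → Bool := supp L (nr L.length)

/-- The reduction to supports of orthogonal matrices. -/
def redS (L : List (List ℕ)) : List (List ℕ) :=
  if chk L = true then patL (sizeL L) (suppL L) else [[]]

/-- The reduction to graphs with two distinct eigenvalues. -/
def redT (L : List (List ℕ)) : List (List ℕ) :=
  if chk L = true then patL (sizeL L + sizeL L) (bipB (sizeL L) (suppL L)) else [[]]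

theorem not_isSupport : ¬ IsSupport [[]] := by
  rw [isSupport_of_length (B := [[]]) (n := 1) rfl]
  rintro ⟨Q, hQ1, hQ2⟩
  have h1 : ∀ i j : Fin 1, Q i j = 0 := by
    intro i j
    by_contra h
    have h2 := (hQ2 i j).1 h
    have hi : i = 0 := Subsingleton.elim _ _
    subst hi
    simp at h2
  have h2 := congrFun (congrFun hQ1 0) 0
  rw [Matrix.mul_apply, Finset.sum_eq_zero (fun k _ => by rw [h1 0 k, zero_mul])] at h2
  simp at h2

theorem not_hasTwo : ¬ HasTwo [[]] := by
  rintro ⟨h, hq⟩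
  rw [qNum_eq_two] at hq
  obtain ⟨⟨i, j, hij⟩, -⟩ := hq
  have hi : i = (0 : Fin 1) := Subsingleton.elim (α := Fin 1) _ _
  have hj : j = (0 : Fin 1) := Subsingleton.elim (α := Fin 1) _ _
  subst hi
  subst hj
  exact (graphOf [[]] h).loopless.irrefl _ hij

theorem redS_correct (L : List (List ℕ)) : (∃ h : IsGraph L,
    ∃ φ : Fin L.length → EuclideanSpace ℝ (Fin 3), IsOrthRep (graphOf L h) φ) ↔
      IsSupport (redS L) := by
  unfold redS
  split_ifs with hc
  · have hG := (chk_iff L).1 hc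
    rw [isSupport_patL]
    exact ⟨fun ⟨h, hφ⟩ => (supp_iff h).1 hφ, fun h => ⟨hG, (supp_iff hG).2 h⟩⟩
  · exact ⟨fun ⟨h, _⟩ => absurd ((chk_iff L).2 h) hc, fun h => absurd h not_isSupport⟩

theorem redT_correct (L : List (List ℕ)) : (∃ h : IsGraph L,
    ∃ φ : Fin L.length → EuclideanSpace ℝ (Fin 3), IsOrthRep (graphOf L h) φ) ↔
      HasTwo (redT L) := by
  unfold redT
  split_ifs with hc
  · have hG := (chk_iff L).1 hc
    have hR : nr L.length ≤ nr L.length * nr L.length := Nat.le_mul_self _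
    have hsz : 3 ≤ sizeL L := by unfold sizeL nc; omega
    have hlt : nr L.length < sizeL L := by unfold sizeL nc; omega
    rw [hasTwo_bip (by omega) ⟨nr L.length, hlt, fun j _ => by simp [suppL, supp]⟩
      (fun i _ => ⟨0, by omega, by simp [suppL, supp]⟩)]
    exact ⟨fun ⟨h, hφ⟩ => (supp_iff h).1 hφ, fun h => ⟨hG, (supp_iff hG).2 h⟩⟩
  · exact ⟨fun ⟨h, _⟩ => absurd ((chk_iff L).2 h) hc, fun h => absurd h not_hasTwo⟩

/-! ### Polynomial time -/

section

variable {α : Type} [TEnc α]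

theorem poly_ty {L : α → List (List ℕ)} {ρ σ : α → ℕ} (hL : Poly L) (hρ : Poly ρ) (hσ : Poly σ) :
    Poly (fun a => ty (L a) (ρ a) (σ a)) := by
  have hm : Poly (fun a => (L a).length) := Poly.length hL
  unfold ty
  have hd : Poly (fun a => (σ a - (L a).length) / (L a).length) := Poly.div (Poly.sub hσ hm) hm
  have hr : Poly (fun a => (σ a - (L a).length) % (L a).length) := Poly.mod (Poly.sub hσ hm) hm
  refine Poly.ite (Poly.decide_lt hσ hm) (Poly.ite (Poly.decide_mem hσ
    (Poly.getD hL hρ (Poly.const _))) (Poly.const _) (Poly.const _)) (Poly.ite ?_ (Poly.ite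
    (Poly.decide_eq hd hr) (Poly.const _) (Poly.ite (Poly.decide_eq hρ hd) (Poly.const _)
    (Poly.ite (Poly.decide_eq hρ hr) (Poly.const _) (Poly.const _)))) (Poly.const _))
  refine (Poly.and (Poly.decide_lt hρ hm) (Poly.decide_lt hσ (Poly.add hm
    (Poly.mul hm hm)))).congr fun a => ?_
  rw [Bool.decide_and]

theorem poly_supp {L : α → List (List ℕ)} {R i j : α → ℕ} (hL : Poly L) (hR : Poly R)
    (hi : Poly i) (hj : Poly j) : Poly (fun a => supp (L a) (R a) (i a) (j a)) := by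
  have h3 : Poly (fun a => j a - 3) := Poly.sub hj (Poly.const 3)
  have h2 : Poly (fun a => (j a - 3) / 2) := Poly.div h3 (Poly.const 2)
  have hs : Poly (fun a => (j a - 3) % 2) := Poly.mod h3 (Poly.const 2)
  have hρ : Poly (fun a => (j a - 3) / 2 / R a) := Poly.div h2 hR
  have hσ : Poly (fun a => (j a - 3) / 2 % R a) := Poly.mod h2 hR
  exact Poly.or (Poly.decide_le hR hi) (Poly.or (Poly.decide_lt hj (Poly.const 3)) (Poly.and
    (Poly.and (Poly.decide_lt hρ hσ) (Poly.decide_lt hs (poly_ty hL hρ hσ)))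
    (Poly.or (Poly.decide_eq hi hρ) (Poly.decide_eq hi hσ))))

theorem poly_bipB {n a b : α → ℕ} {S : α → ℕ → ℕ → Bool} (hn : Poly n) (ha : Poly a)
    (hb : Poly b) (hS1 : Poly (fun x => S x (a x) (b x - n x)))
    (hS2 : Poly (fun x => S x (b x) (a x - n x))) :
    Poly (fun x => bipB (n x) (S x) (a x) (b x)) :=
  Poly.or (Poly.and (Poly.decide_lt ha hn) (Poly.and (Poly.decide_le hn hb) hS1))
    (Poly.and (Poly.decide_le hn ha) (Poly.and (Poly.decide_lt hb hn) hS2))

theorem poly_patL {n : α → ℕ} {S : α → ℕ → ℕ → Bool} (hn : UPoly n)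
    (hS : Poly (fun p : (α × ℕ) × ℕ => S p.1.1 p.1.2 p.2)) : Poly (fun a => patL (n a) (S a)) := by
  unfold patL
  refine Poly.map (F := fun a i => (List.range (n a)).filter fun j => S a i j) hn.range ?_
  exact Poly.filter (p := fun (q : α × ℕ) j => S q.1 q.2 j) (UPoly.range (hn.comp
    (Poly.fst Poly.id))) hS

theorem upoly_nr {L : α → List (List ℕ)} (hL : Poly L) : UPoly (fun a => nr (L a).length) :=
  UPoly.add (UPoly.add (UPoly.length hL) (UPoly.mul (UPoly.length hL) (UPoly.length hL)))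
    (UPoly.const 3)

theorem upoly_sizeL {L : α → List (List ℕ)} (hL : Poly L) : UPoly (fun a => sizeL (L a)) :=
  UPoly.add (UPoly.const 3) (UPoly.mul (UPoly.mul (upoly_nr hL) (upoly_nr hL)) (UPoly.const 2))

end

theorem poly_redS : Poly redS := by
  refine Poly.ite (p := fun L => chk L = true) (Poly.decide_bool poly_chk) ?_ (Poly.const _)
  refine poly_patL (upoly_sizeL Poly.id) ?_
  exact poly_supp (Poly.fst (Poly.fst Poly.id)) (upoly_nr (Poly.fst (Poly.fst Poly.id))).toPoly
    (Poly.snd (Poly.fst Poly.id)) (Poly.snd Poly.id)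

theorem poly_redT : Poly redT := by
  refine Poly.ite (p := fun L => chk L = true) (Poly.decide_bool poly_chk) ?_ (Poly.const _)
  refine poly_patL (UPoly.add (upoly_sizeL Poly.id) (upoly_sizeL Poly.id)) ?_
  have hL : Poly (fun p : (List (List ℕ) × ℕ) × ℕ => p.1.1) := Poly.fst (Poly.fst Poly.id)
  have ha : Poly (fun p : (List (List ℕ) × ℕ) × ℕ => p.1.2) := Poly.snd (Poly.fst Poly.id)
  have hb : Poly (fun p : (List (List ℕ) × ℕ) × ℕ => p.2) := Poly.snd Poly.id
  have hn : Poly (fun p : (List (List ℕ) × ℕ) × ℕ => sizeL p.1.1) := (upoly_sizeL hL).toPoly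
  exact poly_bipB (S := fun p : (List (List ℕ) × ℕ) × ℕ => suppL p.1.1) hn ha hb
    (poly_supp hL (upoly_nr hL).toPoly ha (Poly.sub hb hn))
    (poly_supp hL (upoly_nr hL).toPoly hb (Poly.sub ha hn))

theorem hard_S : ERHard OrthSupport := orth3_hard.trans (reduces_lang poly_redS redS_correct)

theorem hard_T : ERHard TwoEigenvalues := orth3_hard.trans (reduces_lang poly_redT redT_correct)

end Pool.Agent.NPC.TH925OS
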