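import Mathlib

/-!
# Generic orthonormal families and completion of orthonormal rows
-/

namespace Pool.Agent.TH925.OS

open Module Submodule

/-- A finite-dimensional nonzero real inner product space contains a unit vector which is not
orthogonal to any of finitely many given nonzero vectors, and not proportional to any of them
if the dimension is at least two. -/
theorem exists_unit {W : Type} [NormedAddCommGroup W] [InnerProductSpace ℝ W]
    [FiniteDimensional ℝ W] {n : ℕ} (hW : finrank ℝ W = n + 1) (s : Finset W)
    (hs : ∀ p ∈ s, p ≠ 0) :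
    ∃ b : W, ‖b‖ = 1 ∧ (∀ p ∈ s, inner ℝ b p ≠ 0) ∧
      (n ≠ 0 → ∀ p ∈ s, p ∉ span ℝ {b}) := by
  classical
  have hnt : (⊥ : Submodule ℝ W) ≠ ⊤ := by
    intro h
    have h1 := finrank_top ℝ W
    rw [← h, finrank_bot] at h1
    omega
  set F : Finset (Submodule ℝ W) := insert ⊥ ((s.image fun p => (span ℝ {p})ᗮ) ∪
    (s.image fun p => span ℝ {p}).filter fun K => K ≠ ⊤) with hF
  have htop : (⊤ : Submodule ℝ W) ∉ F := by
    intro h
    rw [hF, Finset.mem_insert, Finset.mem_union, Finset.mem_image, Finset.mem_filter] at h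
    rcases h with h | ⟨p, hp, h⟩ | ⟨-, h⟩
    · exact hnt h.symm
    · have h1 : p ∈ (span ℝ {p})ᗮ := by rw [h]; exact mem_top
      rw [mem_orthogonal_singleton_iff_inner_right] at h1
      exact hs p hp (inner_self_eq_zero.1 h1)
    · exact h rfl
  have hne := Subspace.biUnion_ne_univ_of_top_notMem htop
  obtain ⟨b, hb⟩ := (Set.ne_univ_iff_exists_notMem _).1 hne
  simp only [Set.mem_iUnion, not_exists] at hb
  have hb0 : b ≠ 0 := by
    intro h
    refine hb ⊥ (by rw [hF]; exact Finset.mem_insert_self _ _) ?_
    rw [h]
    exact Submodule.zero_mem _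
  have hbn : ‖b‖ ≠ 0 := norm_ne_zero_iff.2 hb0
  refine ⟨‖b‖⁻¹ • b, ?_, fun p hp h => ?_, fun hn p hp h => ?_⟩
  · rw [norm_smul, norm_inv, norm_norm, inv_mul_cancel₀ hbn]
  · rw [real_inner_smul_left, mul_eq_zero] at h
    rcases h with h | h
    · exact hbn (inv_eq_zero.1 h)
    · refine hb (span ℝ {p})ᗮ ?_ ?_
      · rw [hF]
        refine Finset.mem_insert_of_mem (Finset.mem_union_left _ (Finset.mem_image_of_mem _ hp))
      · change b ∈ (span ℝ {p})ᗮ
        rw [mem_orthogonal_singleton_iff_inner_right, real_inner_comm]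
        exact h
  · rw [mem_span_singleton] at h
    obtain ⟨c, hc⟩ := h
    have hc0 : c ≠ 0 := by
      intro h0
      rw [h0, zero_smul] at hc
      exact hs p hp hc.symm
    refine hb (span ℝ {p}) ?_ ?_
    · rw [hF]
      refine Finset.mem_insert_of_mem (Finset.mem_union_right _ (Finset.mem_filter.2
        ⟨Finset.mem_image_of_mem _ hp, fun h1 => ?_⟩))
      have h2 := finrank_top ℝ W
      rw [← h1, finrank_span_singleton (hs p hp)] at h2
      omega
    · change b ∈ span ℝ {p}
      rw [mem_span_singleton]
      refine ⟨‖b‖ * c⁻¹, ?_⟩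
      rw [← hc, smul_smul, smul_smul]
      have : ‖b‖ * c⁻¹ * c * ‖b‖⁻¹ = 1 := by field_simp
      rw [this, one_smul]

/-- In an `n`-dimensional real inner product space there are `n` orthonormal vectors none of
which is orthogonal to any of finitely many given nonzero vectors. -/
theorem exists_generic : ∀ (n : ℕ) (W : Type) [NormedAddCommGroup W] [InnerProductSpace ℝ W]
    [FiniteDimensional ℝ W], finrank ℝ W = n → ∀ s : Finset W, (∀ p ∈ s, p ≠ 0) →
    ∃ f : Fin n → W, Orthonormal ℝ f ∧ ∀ i, ∀ p ∈ s, inner ℝ (f i) p ≠ 0 := by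
  classical
  intro n
  induction n with
  | zero =>
    intro W _ _ _ _ s _
    exact ⟨Fin.elim0, ⟨fun i => i.elim0, fun i => i.elim0⟩, fun i => i.elim0⟩
  | succ n ih =>
    intro W _ _ _ hW s hs
    obtain ⟨b, hb1, hb2, hb3⟩ := exists_unit hW s hs
    have hb0 : b ≠ 0 := by
      intro h
      rw [h, norm_zero] at hb1
      exact zero_ne_one hb1
    have hdim : finrank ℝ ((span ℝ {b})ᗮ : Submodule ℝ W) = n := by
      have h1 := Submodule.finrank_add_finrank_orthogonal (span ℝ {b})
      rw [finrank_span_singleton hb0, hW] at h1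
      omega
    obtain ⟨f, hf1, hf2⟩ := ih ((span ℝ {b})ᗮ : Submodule ℝ W) hdim
      ((s.image fun p => ((span ℝ {b})ᗮ : Submodule ℝ W).orthogonalProjectionOnto p).filter
        fun q => q ≠ 0) (fun p hp => (Finset.mem_filter.1 hp).2)
    have hort : ∀ i, inner ℝ b (f i : W) = 0 := fun i =>
      mem_orthogonal_singleton_iff_inner_right.1 (f i).2
    refine ⟨Fin.cons b fun i => (f i : W), ⟨?_, ?_⟩, ?_⟩
    · intro i
      refine Fin.cases ?_ (fun i => ?_) i
      · exact hb1
      · exact hf1.1 i
    · intro i j hij
      induction i using Fin.cases with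
      | zero =>
        induction j using Fin.cases with
        | zero => exact absurd rfl hij
        | succ j => exact hort j
      | succ i =>
        induction j using Fin.cases with
        | zero =>
          change inner ℝ (f i : W) b = 0
          rw [real_inner_comm]
          exact hort i
        | succ j => exact hf1.2 fun h => hij (congrArg Fin.succ h)
    · intro i p hp
      induction i using Fin.cases with
      | zero => exact hb2 p hp
      | succ i =>
        change inner ℝ (f i : W) p ≠ 0
        have hn : n ≠ 0 := by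
          intro h
          have := i.2
          omega
        have hq : ((span ℝ {b})ᗮ : Submodule ℝ W).orthogonalProjectionOnto p ≠ 0 := by
          intro h
          rw [orthogonalProjectionOnto_eq_zero_iff, orthogonal_orthogonal] at h
          exact hb3 hn p hp h
        have h1 := hf2 i _ (Finset.mem_filter.2 ⟨Finset.mem_image_of_mem _ hp, hq⟩)
        rwa [inner_orthogonalProjectionOnto_eq_of_mem_left] at h1

end Pool.Agent.TH925.OS
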