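import Mathlib
import Pool.Agent.TH925.OS.Defs

/-!
# Graphs with two distinct eigenvalues
-/

namespace Pool.Agent.TH925.OS

open Matrix

/-- A real symmetric matrix whose eigenvalues are among `a` and `b` satisfies
`(M - a) (M - b) = 0`. -/
theorem spec_two {n : ℕ} {M : Matrix (Fin n) (Fin n) ℝ} (hM : M.IsSymm) {a b : ℝ}
    (h : spectrum ℝ M ⊆ {a, b}) : (M - a • 1) * (M - b • 1) = 0 := by
  have hH : M.IsHermitian := by
    unfold Matrix.IsHermitian
    rw [Matrix.conjTranspose_eq_transpose_of_trivial]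
    exact hM
  have hev : ∀ i, (hH.eigenvalues i - a) * (hH.eigenvalues i - b) = 0 := by
    intro i
    have h1 := h (hH.eigenvalues_mem_spectrum_real i)
    rcases h1 with h1 | h1
    · rw [h1, sub_self, zero_mul]
    · rw [Set.mem_singleton_iff] at h1
      rw [h1, sub_self, mul_zero]
  set D : Matrix (Fin n) (Fin n) ℝ := diagonal (RCLike.ofReal ∘ hH.eigenvalues) with hD
  have hs : M = Unitary.conjStarAlgAut ℝ _ hH.eigenvectorUnitary D := hH.spectral_theorem
  have hD1 : ∀ c : ℝ, D - c • 1 = diagonal fun i => hH.eigenvalues i - c := by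
    intro c
    rw [hD]
    ext i j
    by_cases hij : i = j
    · subst hij
      simp
    · simp [hij]
  have hD2 : (D - a • 1) * (D - b • 1) = 0 := by
    rw [hD1, hD1, diagonal_mul_diagonal]
    ext i j
    by_cases hij : i = j
    · subst hij
      simp only [diagonal_apply_eq, Matrix.zero_apply]
      exact hev i
    · simp [hij]
  have h3 : ∀ c : ℝ, M - c • 1 =
      Unitary.conjStarAlgAut ℝ _ hH.eigenvectorUnitary (D - c • 1) := by
    intro c
    rw [map_sub, map_smul, map_one, ← hs]
  rw [h3, h3, ← map_mul, hD2, map_zero]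

/-- If `M` is symmetric with a nonzero entry outside the diagonal, then it has two eigenvalues. -/
theorem two_le_ncard {n : ℕ} {M : Matrix (Fin n) (Fin n) ℝ} (hM : M.IsSymm) {i j : Fin n}
    (hij : i ≠ j) (h : M i j ≠ 0) : 2 ≤ (spectrum ℝ M).ncard := by
  by_contra hlt
  have hfin : (spectrum ℝ M).Finite := Matrix.finite_real_spectrum
  have hsub : ∃ a : ℝ, spectrum ℝ M ⊆ {a, a} := by
    have h1 : (spectrum ℝ M).ncard ≤ 1 := by omega
    rw [Set.ncard_le_one_iff_eq hfin] at h1
    rcases h1 with h1 | ⟨a, h1⟩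
    · exact ⟨0, by rw [h1]; exact Set.empty_subset _⟩
    · exact ⟨a, by rw [h1]; simp⟩
  obtain ⟨a, ha⟩ := hsub
  have h2 := spec_two hM ha
  have h3 : (M - a • 1)ᵀ = M - a • 1 := by
    rw [transpose_sub, transpose_smul, transpose_one, hM]
  have h4 := congrFun (congrFun h2 i) i
  rw [Matrix.mul_apply, Matrix.zero_apply] at h4
  have h5 : ∀ k, (M - a • 1) i k * (M - a • 1) k i = (M - a • 1) i k * (M - a • 1) i k := by
    intro k
    have := congrFun (congrFun h3 i) k
    rw [transpose_apply] at this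
    rw [this]
  simp only [h5] at h4
  have h6 := (Finset.sum_eq_zero_iff_of_nonneg (fun k _ => mul_self_nonneg _)).1 h4 j
    (Finset.mem_univ j)
  have h7 : (M - a • 1) i j = M i j := by simp [hij]
  rw [h7] at h6
  exact h (mul_self_eq_zero.1 h6)

/-- An involutory matrix has at most the eigenvalues `1` and `-1`. -/
theorem spec_invol {n : ℕ} {M : Matrix (Fin n) (Fin n) ℝ} (hM : M * M = 1) :
    spectrum ℝ M ⊆ {1, -1} := by
  intro a ha
  by_contra h
  have ha1 : a ≠ 1 := fun h1 => h (Or.inl h1)
  have ha2 : a ≠ -1 := fun h1 => h (Or.inr h1)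
  have ha3 : a * a - 1 ≠ 0 := by
    intro h1
    have h2 : (a - 1) * (a + 1) = 0 := by linarith
    rcases mul_eq_zero.1 h2 with h3 | h3
    · exact ha1 (by linarith)
    · exact ha2 (by linarith)
  apply ha
  change IsUnit (algebraMap ℝ (Matrix (Fin n) (Fin n) ℝ) a - M)
  rw [Algebra.algebraMap_eq_smul_one]
  have h1 : (a • 1 - M) * ((a * a - 1)⁻¹ • (a • 1 + M)) = 1 := by
    rw [Matrix.mul_smul, Matrix.sub_mul, Matrix.mul_add, Matrix.mul_add, hM]
    simp only [Matrix.smul_mul, Matrix.mul_smul, Matrix.one_mul, Matrix.mul_one]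
    rw [show a • a • (1 : Matrix (Fin n) (Fin n) ℝ) + a • M - (a • M + 1) =
      (a * a - 1) • (1 : Matrix (Fin n) (Fin n) ℝ) from ?_]
    · rw [smul_smul, inv_mul_cancel₀ ha3, one_smul]
    · rw [sub_smul, one_smul, smul_smul]
      abel
  exact IsUnit.of_mul_eq_one _ h1

/-- The adjacency matrix, over the reals. -/
theorem exists_symOf {V : Type} (G : SimpleGraph V) : ∃ M, M ∈ SymOf G := by
  classical
  refine ⟨Matrix.of fun i j => if G.Adj i j then 1 else 0, ?_, fun i j _ => ?_⟩
  · ext i j
    simp [Matrix.transpose_apply, G.adj_comm]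
  · simp

/-- `q(G) = 2` if and only if `G` has an edge and there is an involutory symmetric matrix
with graph `G`. -/
theorem qNum_eq_two {n : ℕ} (G : SimpleGraph (Fin n)) : qNum G = 2 ↔
    (∃ i j, G.Adj i j) ∧ ∃ M ∈ SymOf G, M * M = 1 := by
  have hne : {k | ∃ M ∈ SymOf G, (spectrum ℝ M).ncard = k}.Nonempty := by
    obtain ⟨M, hM⟩ := exists_symOf G
    exact ⟨_, M, hM, rfl⟩
  constructor
  · intro h
    have hmem := Nat.sInf_mem hne
    rw [show sInf {k | ∃ M ∈ SymOf G, (spectrum ℝ M).ncard = k} = 2 from h] at hmem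
    obtain ⟨M, hM, hk⟩ := hmem
    obtain ⟨a, b, hab, hs⟩ := Set.ncard_eq_two.1 hk
    constructor
    · by_contra hno
      push Not at hno
      have h0 : (0 : Matrix (Fin n) (Fin n) ℝ) ∈ SymOf G := by
        refine ⟨by unfold Matrix.IsSymm; exact transpose_zero, fun i j _ => ?_⟩
        simp [hno i j]
      have h1 : qNum G ≤ (spectrum ℝ (0 : Matrix (Fin n) (Fin n) ℝ)).ncard :=
        Nat.sInf_le ⟨0, h0, rfl⟩
      have h2 : (spectrum ℝ (0 : Matrix (Fin n) (Fin n) ℝ)).ncard ≤ 1 := by
        have h3 : spectrum ℝ (0 : Matrix (Fin n) (Fin n) ℝ) ⊆ {0} := by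
          intro c hc
          by_contra hc0
          apply hc
          change IsUnit (algebraMap ℝ (Matrix (Fin n) (Fin n) ℝ) c - 0)
          rw [sub_zero]
          exact (IsUnit.mk0 c hc0).map _
        calc (spectrum ℝ (0 : Matrix (Fin n) (Fin n) ℝ)).ncard ≤ ({0} : Set ℝ).ncard :=
              Set.ncard_le_ncard h3 (Set.finite_singleton _)
          _ = 1 := Set.ncard_singleton _
      omega
    · have hab' : a - b ≠ 0 := sub_ne_zero.2 hab
      have h2 := spec_two hM.1 (hs.le.trans (le_refl ({a, b} : Set ℝ)))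
      have h3 : M * M = (a + b) • M - (a * b) • 1 := by
        rw [Matrix.sub_mul, Matrix.mul_sub, Matrix.mul_sub] at h2
        simp only [Matrix.smul_mul, Matrix.mul_smul, Matrix.one_mul, Matrix.mul_one] at h2
        rw [add_smul, ← sub_eq_zero]
        rw [← h2, mul_smul, smul_comm a b]
        abel
      refine ⟨(2 / (a - b)) • M - ((a + b) / (a - b)) • 1, ⟨?_, fun i j hij => ?_⟩, ?_⟩
      · unfold Matrix.IsSymm
        rw [transpose_sub, transpose_smul, transpose_smul, transpose_one, hM.1]
      · rw [← hM.2 i j hij]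
        have : ((2 / (a - b)) • M - ((a + b) / (a - b)) • 1 : Matrix (Fin n) (Fin n) ℝ) i j =
          (2 / (a - b)) * M i j := by simp [hij]
        rw [this]
        constructor
        · exact fun h => right_ne_zero_of_mul h
        · exact fun h => mul_ne_zero (div_ne_zero two_ne_zero hab') h
      · rw [Matrix.sub_mul, Matrix.mul_sub, Matrix.mul_sub]
        simp only [Matrix.smul_mul, Matrix.mul_smul, Matrix.one_mul, Matrix.mul_one]
        rw [h3]
        ext i j
        simp only [Matrix.sub_apply, Matrix.smul_apply, smul_eq_mul]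
        by_cases hij : i = j
        · subst hij
          simp only [Matrix.one_apply_eq]
          field_simp
          ring
        · simp only [Matrix.one_apply_ne hij]
          field_simp
          ring
  · rintro ⟨⟨i, j, hij⟩, M, hM, hMM⟩
    have hge : ∀ N ∈ SymOf G, 2 ≤ (spectrum ℝ N).ncard := fun N hN =>
      two_le_ncard hN.1 (G.ne_of_adj hij) ((hN.2 i j (G.ne_of_adj hij)).2 hij)
    apply le_antisymm
    · have h1 : qNum G ≤ (spectrum ℝ M).ncard := Nat.sInf_le ⟨M, hM, rfl⟩
      refine h1.trans ?_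
      calc (spectrum ℝ M).ncard ≤ ({1, -1} : Set ℝ).ncard :=
            Set.ncard_le_ncard (spec_invol hMM) (Set.toFinite _)
        _ ≤ 2 := Set.ncard_insert_le _ _ |>.trans (by rw [Set.ncard_singleton])
    · obtain ⟨N, hN, hk⟩ := Nat.sInf_mem hne
      have := hge N hN
      unfold qNum
      omega

end Pool.Agent.TH925.OS
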