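import Pool.Agent.TH925.OS.Core
import Pool.Agent.H670R2.OrthDefs

/-!
# Orthogonal representations of graphs as orthogonality relations of rows
-/

namespace Pool.Agent.TH925.OS

open Module Submodule Pool.Agent.H670R2

/-- The number of rows with zeros, for a graph with `m` vertices: a row for every vertex, a
witness row for every pair of vertices, and three more rows. -/
def nr (m : ℕ) : ℕ := m + m * m + 3

/-- The type of the pair of rows `ρ < σ`: `0` if the core vectors have to be orthogonal, `1` if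
they must not be orthogonal, `2` if there is no condition. -/
def ty (L : List (List ℕ)) (ρ σ : ℕ) : ℕ :=
  if σ < L.length then (if σ ∈ L.getD ρ [] then 0 else 2)
  else if ρ < L.length ∧ σ < L.length + L.length * L.length then
    (if (σ - L.length) / L.length = (σ - L.length) % L.length then 2
     else if ρ = (σ - L.length) / L.length then 0
     else if ρ = (σ - L.length) % L.length then 1 else 2)
  else 2

theorem ty_le (L : List (List ℕ)) (ρ σ : ℕ) : ty L ρ σ ≤ 2 := by
  unfold ty
  split_ifs <;> omega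

theorem ty_big (L : List (List ℕ)) {ρ σ : ℕ} (h : L.length + L.length * L.length ≤ σ) :
    ty L ρ σ = 2 := by
  unfold ty
  rw [if_neg (by
    have := Nat.zero_le (L.length * L.length)
    omega), if_neg (by omega)]

/-- Every row is in two pairs of type two. -/
theorem ty_two (L : List (List ℕ)) (ρ : Fin (nr L.length))
    (d : Fin (nr L.length) × Fin (nr L.length)) :
    ∃ p : Fin (nr L.length) × Fin (nr L.length), p.1 < p.2 ∧ ty L p.1 p.2 = 2 ∧ p ≠ d ∧
      (p.1 = ρ ∨ p.2 = ρ) := by
  set M := L.length + L.length * L.length with hM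
  have hR : nr L.length = M + 3 := rfl
  have key : ∀ a b a' b' : ℕ, ∀ (ha : a < M + 3) (hb : b < M + 3) (ha' : a' < M + 3)
      (hb' : b' < M + 3), a < b → a' < b' → M ≤ b → M ≤ b' → (a ≠ a' ∨ b ≠ b') →
      (a = ρ.1 ∨ b = ρ.1) → (a' = ρ.1 ∨ b' = ρ.1) →
      ∃ p : Fin (nr L.length) × Fin (nr L.length), p.1 < p.2 ∧ ty L p.1 p.2 = 2 ∧ p ≠ d ∧
      (p.1 = ρ ∨ p.2 = ρ) := by
    intro a b a' b' ha hb ha' hb' hab hab' hMb hMb' hne h1 h2
    by_cases hd : d = ((⟨a, ha⟩ : Fin (nr L.length)), (⟨b, hb⟩ : Fin (nr L.length)))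
    · refine ⟨((⟨a', ha'⟩ : Fin (nr L.length)), (⟨b', hb'⟩ : Fin (nr L.length))), hab',
        ty_big L hMb', ?_, ?_⟩
      · intro h
        rw [hd] at h
        have h3 : a' = a := congrArg (fun p => p.1.1) h
        have h4 : b' = b := congrArg (fun p => p.2.1) h
        omega
      · exact h2.imp (fun h => Fin.ext h) (fun h => Fin.ext h)
    · refine ⟨((⟨a, ha⟩ : Fin (nr L.length)), (⟨b, hb⟩ : Fin (nr L.length))), hab,
        ty_big L hMb, fun h => hd h.symm, ?_⟩
      exact h1.imp (fun h => Fin.ext h) (fun h => Fin.ext h)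
  have hρ : ρ.1 < M + 3 := ρ.2
  rcases (by omega : ρ.1 < M + 1 ∨ ρ.1 = M + 1 ∨ ρ.1 = M + 2) with h | h | h
  · exact key ρ.1 (M + 1) ρ.1 (M + 2) (by omega) (by omega) (by omega) (by omega) (by omega)
      (by omega) (by omega) (by omega) (by omega) (by omega) (by omega)
  · exact key M (M + 1) (M + 1) (M + 2) (by omega) (by omega) (by omega) (by omega) (by omega)
      (by omega) (by omega) (by omega) (by omega) (by omega) (by omega)
  · exact key M (M + 2) (M + 1) (M + 2) (by omega) (by omega) (by omega) (by omega) (by omega)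
      (by omega) (by omega) (by omega) (by omega) (by omega) (by omega)

/-- The types, on the rows. -/
def tyF (L : List (List ℕ)) (i k : Fin (nr L.length)) : ℕ := ty L i.1 k.1

/-- The witness row of a pair of vertices. -/
def wit (m u v : ℕ) : ℕ := m + (u * m + v)

theorem wit_lt {m u v : ℕ} (hu : u < m) (hv : v < m) : wit m u v < m + m * m := by
  unfold wit
  have h1 : u * m + v < (u + 1) * m := by
    rw [Nat.add_mul, Nat.one_mul]
    omega
  have h2 : (u + 1) * m ≤ m * m := Nat.mul_le_mul_right m (by omega)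
  omega

theorem wit_div {m u v : ℕ} (hv : v < m) : (wit m u v - m) / m = u := by
  unfold wit
  rw [Nat.add_sub_cancel_left, Nat.mul_comm u m, Nat.mul_add_div (by omega),
    Nat.div_eq_of_lt hv, Nat.add_zero]

theorem wit_mod {m u v : ℕ} (hv : v < m) : (wit m u v - m) % m = v := by
  unfold wit
  rw [Nat.add_sub_cancel_left, Nat.mul_comm u m, Nat.mul_add_mod, Nat.mod_eq_of_lt hv]

theorem ty_wit0 {L : List (List ℕ)} {u v : ℕ} (hu : u < L.length) (hv : v < L.length)
    (huv : u ≠ v) : ty L u (wit L.length u v) = 0 := by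
  unfold ty
  have h1 := wit_lt hu hv
  have h2 : ¬ wit L.length u v < L.length := by unfold wit; omega
  rw [if_neg h2, if_pos ⟨hu, h1⟩, wit_div hv, wit_mod hv, if_neg huv, if_pos rfl]

theorem ty_wit1 {L : List (List ℕ)} {u v : ℕ} (hu : u < L.length) (hv : v < L.length)
    (huv : u ≠ v) : ty L v (wit L.length u v) = 1 := by
  unfold ty
  have h1 := wit_lt hu hv
  have h2 : ¬ wit L.length u v < L.length := by unfold wit; omega
  rw [if_neg h2, if_pos ⟨hv, h1⟩, wit_div hv, wit_mod hv, if_neg huv, if_neg (Ne.symm huv),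
    if_pos rfl]

/-- From the relations to an orthogonal representation. -/
theorem orth_of_rel {L : List (List ℕ)} (h : IsGraph L) {w : Fin (nr L.length) → E3}
    (hw : Rel (tyF L) w) : ∃ φ : Fin L.length → E3, IsOrthRep (graphOf L h) φ := by
  have hnr : ∀ k, k < L.length + L.length * L.length → k < nr L.length := fun k hk => by
    unfold nr; omega
  have hlt : ∀ k, k < L.length → k < nr L.length := fun k hk => by
    unfold nr; omega
  have hw0 : ∀ i, w i ≠ 0 := fun i h0 => hw.1 i 0 (by rw [h0]; rfl)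
  refine ⟨fun v => w ⟨v.1, hlt _ v.2⟩, fun v => hw0 _, fun u v huv c hc => ?_, fun u v huv => ?_⟩
  · have huv' : u.1 ≠ v.1 := fun h => huv (Fin.ext h)
    have hω := wit_lt u.2 v.2
    have hω' : L.length ≤ wit L.length u.1 v.1 := by unfold wit; omega
    have h1 := (hw.2 ⟨u.1, hlt _ u.2⟩ ⟨wit L.length u.1 v.1, hnr _ hω⟩
      (Fin.mk_lt_mk.2 (by have := u.2; omega))).1 (ty_wit0 u.2 v.2 huv')
    have h2 := (hw.2 ⟨v.1, hlt _ v.2⟩ ⟨wit L.length u.1 v.1, hnr _ hω⟩
      (Fin.mk_lt_mk.2 (by have := v.2; omega))).2 (ty_wit1 u.2 v.2 huv')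
    simp only at hc
    rw [hc, real_inner_smul_left, mul_eq_zero] at h1
    rcases h1 with h1 | h1
    · rw [h1, zero_smul] at hc
      exact hw0 _ hc
    · exact h2 h1
  · have hmem : v.1 ∈ L.getD u.1 [] := huv
    have hmem' : u.1 ∈ L.getD v.1 [] := (h u.1 v.1 u.2 hmem).2.2
    have hne : u.1 ≠ v.1 := fun e => (h u.1 v.1 u.2 hmem).2.1 e.symm
    rcases lt_or_gt_of_ne hne with hlt' | hlt'
    · refine (hw.2 ⟨u.1, hlt _ u.2⟩ ⟨v.1, hlt _ v.2⟩ (Fin.mk_lt_mk.2 hlt')).1 ?_
      unfold tyF ty
      simp only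
      rw [if_pos v.2, if_pos hmem]
    · rw [real_inner_comm]
      refine (hw.2 ⟨v.1, hlt _ v.2⟩ ⟨u.1, hlt _ u.2⟩ (Fin.mk_lt_mk.2 hlt')).1 ?_
      unfold tyF ty
      simp only
      rw [if_pos u.2, if_pos hmem']

/-- A vector which is orthogonal to `a` and not orthogonal to `b`. -/
theorem exists_witness {a b : E3} (ha : a ≠ 0) (hab : ∀ c : ℝ, b ≠ c • a) :
    ∃ z : E3, z ≠ 0 ∧ inner ℝ a z = 0 ∧ inner ℝ b z ≠ 0 := by
  have haa : inner ℝ a a ≠ 0 := fun h => ha (inner_self_eq_zero.1 h)
  set c : ℝ := inner ℝ a b / inner ℝ a a with hc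
  have hz : b - c • a ≠ 0 := fun h => hab c (sub_eq_zero.1 h)
  have h1 : inner ℝ a (b - c • a) = 0 := by
    rw [inner_sub_right, real_inner_smul_right, hc, div_mul_cancel₀ _ haa, sub_self]
  refine ⟨b - c • a, hz, h1, fun h => hz ?_⟩
  rw [← inner_self_eq_zero (𝕜 := ℝ)]
  rw [inner_sub_left, real_inner_smul_left, h, h1, mul_zero, sub_zero]

/-- Nonzero vectors of `ℝ³` can be rotated so that no coordinate vanishes. -/
theorem exists_rotation {n : ℕ} (z : Fin n → E3) (hz : ∀ i, z i ≠ 0) :
    ∃ w : Fin n → E3, (∀ i j, w i j ≠ 0) ∧ ∀ i k, inner ℝ (w i) (w k) = inner ℝ (z i) (z k) := by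
  classical
  have hd : finrank ℝ E3 = 3 := by rw [finrank_euclideanSpace, Fintype.card_fin]
  obtain ⟨f, hf1, hf2⟩ := exists_generic 3 E3 hd (Finset.univ.image z) (by
    intro p hp
    obtain ⟨i, -, rfl⟩ := Finset.mem_image.1 hp
    exact hz i)
  have hsp : ⊤ ≤ span ℝ (Set.range f) := by
    have h1 : finrank ℝ (span ℝ (Set.range f)) = finrank ℝ E3 := by
      rw [finrank_span_eq_card hf1.linearIndependent, Fintype.card_fin, hd]
    rw [Submodule.eq_top_of_finrank_eq h1]
  set B : OrthonormalBasis (Fin 3) ℝ E3 := OrthonormalBasis.mk hf1 hsp with hB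
  refine ⟨fun i => B.repr (z i), fun i j => ?_, fun i k => B.repr.inner_map_map _ _⟩
  rw [B.repr_apply_apply, hB, OrthonormalBasis.coe_mk]
  exact hf2 j _ (Finset.mem_image_of_mem _ (Finset.mem_univ i))

/-- From an orthogonal representation to the relations. -/
theorem rel_of_orth {L : List (List ℕ)} (h : IsGraph L) {φ : Fin L.length → E3}
    (hφ : IsOrthRep (graphOf L h) φ) : ∃ w : Fin (nr L.length) → E3, Rel (tyF L) w := by
  classical
  obtain ⟨h1, h2, h3⟩ := hφ
  have he : (EuclideanSpace.single 0 1 : E3) ≠ 0 := by simp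
  -- witnesses
  have hwit : ∀ u v : Fin L.length, ∃ z : E3, z ≠ 0 ∧ (u ≠ v → inner ℝ (φ u) z = 0 ∧
      inner ℝ (φ v) z ≠ 0) := by
    intro u v
    by_cases huv : u = v
    · exact ⟨_, he, fun h => absurd huv h⟩
    · obtain ⟨z, hz1, hz2, hz3⟩ := exists_witness (h1 u) (h2 v u (Ne.symm huv))
      exact ⟨z, hz1, fun _ => ⟨hz2, hz3⟩⟩
  choose ω hω1 hω2 using hwit
  set z : Fin (nr L.length) → E3 := fun i =>
    if hi : i.1 < L.length then φ ⟨i.1, hi⟩
    else if hi : (i.1 - L.length) / L.length < L.length ∧ (i.1 - L.length) % L.length < L.length then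
      ω ⟨(i.1 - L.length) / L.length, hi.1⟩ ⟨(i.1 - L.length) % L.length, hi.2⟩
    else EuclideanSpace.single 0 1 with hz
  have hz0 : ∀ i, z i ≠ 0 := by
    intro i
    simp only [hz]
    split_ifs
    · exact h1 _
    · exact hω1 _ _
    · exact he
  obtain ⟨w, hw1, hw2⟩ := exists_rotation z hz0
  refine ⟨w, hw1, fun i k hik => ?_⟩
  rw [hw2]
  have hik' : i.1 < k.1 := hik
  by_cases hk : k.1 < L.length
  · have hi : i.1 < L.length := by omega
    have hzi : z i = φ ⟨i.1, hi⟩ := by simp only [hz]; rw [dif_pos hi]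
    have hzk : z k = φ ⟨k.1, hk⟩ := by simp only [hz]; rw [dif_pos hk]
    rw [hzi, hzk]
    unfold tyF ty
    rw [if_pos hk]
    split_ifs with hmem
    · exact ⟨fun _ => h3 ⟨i.1, hi⟩ ⟨k.1, hk⟩ hmem, fun h => absurd h (by decide)⟩
    · exact ⟨fun h => absurd h (by decide), fun h => absurd h (by decide)⟩
  · unfold tyF ty
    rw [if_neg hk]
    split_ifs with hc hd hu hv
    · exact ⟨fun h => absurd h (by decide), fun h => absurd h (by decide)⟩
    · have hdiv : (k.1 - L.length) / L.length < L.length := by rw [← hu]; exact hc.1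
      have hmod : (k.1 - L.length) % L.length < L.length := Nat.mod_lt _ (by omega)
      have hzi : z i = φ ⟨(k.1 - L.length) / L.length, hdiv⟩ := by
        simp only [hz]
        rw [dif_pos hc.1]
        congr 1
        exact Fin.ext hu
      have hzk : z k = ω ⟨(k.1 - L.length) / L.length, hdiv⟩ ⟨(k.1 - L.length) % L.length, hmod⟩ := by
        simp only [hz]
        rw [dif_neg hk, dif_pos ⟨hdiv, hmod⟩]
      rw [hzi, hzk]
      refine ⟨fun _ => (hω2 _ _ ?_).1, fun h => absurd h (by decide)⟩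
      exact fun e => hd (Fin.mk.inj e)
    · have hmod : (k.1 - L.length) % L.length < L.length := by rw [← hv]; exact hc.1
      have hdiv : (k.1 - L.length) / L.length < L.length := by
        rw [Nat.div_lt_iff_lt_mul (by omega)]
        omega
      have hzi : z i = φ ⟨(k.1 - L.length) % L.length, hmod⟩ := by
        simp only [hz]
        rw [dif_pos hc.1]
        congr 1
        exact Fin.ext hv
      have hzk : z k = ω ⟨(k.1 - L.length) / L.length, hdiv⟩ ⟨(k.1 - L.length) % L.length, hmod⟩ := by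
        simp only [hz]
        rw [dif_neg hk, dif_pos ⟨hdiv, hmod⟩]
      rw [hzi, hzk]
      refine ⟨fun h => absurd h (by decide), fun _ => (hω2 _ _ ?_).2⟩
      exact fun e => hd (Fin.mk.inj e)
    · exact ⟨fun h => absurd h (by decide), fun h => absurd h (by decide)⟩
    · exact ⟨fun h => absurd h (by decide), fun h => absurd h (by decide)⟩

end Pool.Agent.TH925.OS
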